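import Pool.Agent.Work.MP_7ff5fd_co.Ev

/-!
# Antipodal pairs, the two apices, and pairs of an apex and a vertex
-/

open Finset Filter Topology

noncomputable section

namespace Pool.Agent.Touch

variable {m : ℕ}

lemma sum_sg_lt {w : Fin (m + 3) → ℝ} (hw : ∀ k, 0 < w k) {x z : Cube m} (h : z ≠ x) :
    ∑ k, w k * (sg (x k) * sg (z k)) < ∑ k, w k := by
  obtain ⟨k, hk⟩ : ∃ k, x k ≠ z k := by
    by_contra hc
    push Not at hc
    exact h (funext fun k => (hc k).symm)
  refine sum_lt_sum (fun i _ => ?_) ⟨k, mem_univ _, ?_⟩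
  · nlinarith [hw i, sg_mul_le (x i) (z i)]
  · rw [sg_mul_eq, if_neg hk]
    linarith [hw k]

lemma lt_sum_sg {w : Fin (m + 3) → ℝ} (hw : ∀ k, 0 < w k) {x z : Cube m} (h : z ≠ bar x) :
    -∑ k, w k < ∑ k, w k * (sg (x k) * sg (z k)) := by
  obtain ⟨k, hk⟩ : ∃ k, x k = z k := by
    by_contra hc
    push Not at hc
    refine h (funext fun k => ?_)
    rw [bar_apply]
    have := hc k
    revert this
    cases x k <;> cases z k <;> simp
  rw [← sum_neg_distrib]
  refine sum_lt_sum (fun i _ => ?_) ⟨k, mem_univ _, ?_⟩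
  · nlinarith [hw i, neg_le_sg_mul (x i) (z i)]
  · rw [sg_mul_eq, if_pos hk]
    linarith [hw k]

lemma sum_sg_self (w : Fin (m + 3) → ℝ) (x : Cube m) :
    ∑ k, w k * (sg (x k) * sg (x k)) = ∑ k, w k :=
  sum_congr rfl fun k _ => by rw [sg_sq, mul_one]

lemma sum_sg_bar (w : Fin (m + 3) → ℝ) (x : Cube m) :
    ∑ k, w k * (sg (x k) * sg (bar x k)) = -∑ k, w k := by
  rw [← sum_neg_distrib]
  refine sum_congr rfl fun k _ => ?_
  rw [bar_apply, sg_not]
  linear_combination (-w k) * sg_sq (x k)

lemma sep_bar (ε : ℝ) (x : Cube m) : Sep ε (Sum.inl x) (Sum.inl (bar x)) := by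
  have hF : ∀ z : Cube m, FF (fun k => sg (x k), (0 : ℝ)) (V0 (Sum.inl z)) =
      ∑ k, 1 * (sg (x k) * sg (z k)) := by
    intro z
    simp [FF, V0]
  have hF' : ∀ s : Bool, FF (fun k : Fin (m + 3) => sg (x k), (0 : ℝ)) (V0 (Sum.inr s)) = 0 := by
    intro s
    simp [FF, V0]
  have h1 : ∀ k : Fin (m + 3), (0 : ℝ) < (fun _ => (1 : ℝ)) k := fun _ => one_pos
  have hpos : 0 < ∑ _k : Fin (m + 3), (1 : ℝ) := sum_pos (fun _ _ => one_pos) univ_nonempty
  refine ⟨(fun k => sg (x k), 0), 0, fun k => ⟨fun hk => ?_, fun hk => ?_⟩⟩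
  · left
    rw [hF, sum_sg_self (fun _ => 1)]
    rcases k with z | s
    · rw [hF]
      have := sum_sg_lt h1 (x := x) (z := z) (fun h => hk (by rw [h]))
      linarith
    · rw [hF']
      linarith
  · left
    rw [hF (bar x), sum_sg_bar (fun _ => 1)]
    rcases k with z | s
    · rw [hF]
      have := lt_sum_sg h1 (x := x) (z := z) (fun h => hk (by rw [h]))
      linarith
    · rw [hF']
      linarith

lemma sep_apices (ε : ℝ) (s : Bool) : Sep (m := m) ε (Sum.inr s) (Sum.inr (!s)) := by
  have hF : ∀ z : Cube m, FF (0, sg s) (V0 (Sum.inl z)) = 0 := by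
    intro z
    simp [FF, V0]
  have hF' : ∀ t : Bool, FF ((0 : Fin (m + 3) → ℝ), sg s) (V0 (Sum.inr t)) =
      sg s * sg t * HH m := by
    intro t
    simp [FF, V0]
    ring
  have hH := HH_pos m
  refine ⟨(0, sg s), 0, fun k => ⟨fun hk => ?_, fun hk => ?_⟩⟩
  · left
    rw [hF', sg_sq, one_mul]
    rcases k with z | t
    · rw [hF]
      linarith
    · rw [hF', sg_mul_eq, if_neg (fun h => hk (by rw [h]))]
      linarith
  · left
    rw [hF' (!s), sg_not, mul_neg, sg_sq]
    rcases k with z | t
    · rw [hF]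
      linarith
    · have hst : s = t := by
        by_contra hc
        apply hk
        congr 1
        revert hc
        cases s <;> cases t <;> simp
      rw [hF', ← hst, sg_sq]
      linarith

/-- the weights of the functional separating an apex and a vertex -/
def ww (x : Cube m) (k : Fin (m + 3)) : ℝ :=
  1 / (4 * (m + 3)) + (if k = (if pr x = 1 then 0 else 1) then 3 / 4 else 0)

lemma ww_pos (x : Cube m) (k : Fin (m + 3)) : 0 < ww x k := by
  unfold ww
  have h : (0 : ℝ) < 1 / (4 * (m + 3)) := by positivity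
  split_ifs <;> linarith

lemma sum_ww (x : Cube m) : ∑ k, ww x k = 1 := by
  unfold ww
  rw [sum_add_distrib, sum_const, card_univ, Fintype.card_fin, sum_ite_eq' univ, if_pos (mem_univ _),
    nsmul_eq_mul]
  push_cast
  have : (m : ℝ) + 3 ≠ 0 := by positivity
  field_simp
  norm_num

lemma zero_ne_one' : (0 : Fin (m + 3)) ≠ 1 := by
  intro h
  have := congrArg Fin.val h
  simp at this

lemma sum_om : ∑ k : Fin (m + 3), om k = 0 := by
  rw [← Finset.add_sum_erase _ _ (mem_univ (0 : Fin (m + 3))),
    ← Finset.add_sum_erase _ _ (mem_erase.2 ⟨zero_ne_one'.symm, mem_univ (1 : Fin (m + 3))⟩)]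
  have hz : ∑ k ∈ (univ.erase (0 : Fin (m + 3))).erase 1, om k = 0 := by
    refine sum_eq_zero fun k hk => ?_
    rw [mem_erase, mem_erase] at hk
    unfold om
    rw [if_neg hk.2.1, if_neg hk.1]
  rw [hz]
  simp [om]

lemma sum_ww_om (x : Cube m) : (∑ k, ww x k * om k) * pr x = 3 / 4 := by
  have h1 : ∑ k, ww x k * om k = 3 / 4 * om (m := m) (if pr x = 1 then 0 else 1) := by
    unfold ww
    simp only [add_mul, sum_add_distrib, ite_mul, zero_mul]
    rw [← mul_sum, sum_om, sum_ite_eq' univ, if_pos (mem_univ _)]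
    ring
  rw [h1]
  rcases pr_sq x with h | h
  · rw [if_pos h, h]
    simp [om]
  · rw [if_neg (by rw [h]; norm_num), h]
    simp [om]

lemma sep_apex {ε : ℝ} (hε : 0 < ε) (s : Bool) (x : Cube m) :
    Sep ε (Sum.inr s) (Sum.inl x) := by
  set U : ℝ := ∑ k, ww x k * gg ε k (bar x) + sg s / HH m * chi ε (bar x) with hU
  set V : ℝ := ∑ k, ww x k * gg ε k x - sg s / HH m * chi ε x with hV
  have hH := HH_pos m
  have hT := TT_pos m
  have hHT : 1 / HH m = 4 * TT m := by
    unfold HH
    rw [one_div_one_div]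
  have hUV : U < V := by
    have hg : ∀ z : Cube m, ∑ k, ww x k * gg ε k z =
        -(chi ε z) ^ 2 + ε / 2 * WW m * (∑ k, ww x k * om k) * pr z := by
      intro z
      have : ∑ k, ww x k * gg ε k z =
          ∑ k, (ww x k * (-(chi ε z) ^ 2) + ww x k * om k * (ε / 2 * WW m * pr z)) :=
        sum_congr rfl fun k _ => by unfold gg; ring
      rw [this, sum_add_distrib, ← sum_mul, ← sum_mul, sum_ww]
      ring
    have e : V - U = ε * (WW m * ((∑ k, ww x k * om k) * pr x) - 4 * tau x * |tau x| -
        8 * TT m * sg s * |tau x|) := by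
      rw [hU, hV, hg, hg, chi_bar, pr_bar]
      unfold chi
      have : sg s / HH m = 4 * TT m * sg s := by
        rw [← hHT]
        ring
      rw [this]
      ring
    rw [sum_ww_om] at e
    have h1 := abs_tau_le x
    have h2 := le_abs_self (tau x)
    have h3 := abs_nonneg (tau x)
    have h4 : sg s ≤ 1 := by cases s <;> simp
    have h5 : tau x * |tau x| ≤ TT m * TT m := mul_le_mul (h2.trans h1) h1 h3 hT.le
    have h6 : TT m * sg s * |tau x| ≤ TT m * TT m := by
      calc TT m * sg s * |tau x| ≤ TT m * 1 * |tau x| := by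
            gcongr
        _ ≤ TT m * TT m := by
            rw [mul_one]
            gcongr
    have h7 : 0 < WW m * (3 / 4) - 4 * tau x * |tau x| - 8 * TT m * sg s * |tau x| := by
      unfold WW
      nlinarith [one_le_TT m]
    have := mul_pos hε h7
    linarith
  have hF : ∀ z : Cube m, FF (fun k => -(ww x k * sg (x k)), sg s / HH m) (V0 (Sum.inl z)) =
      -∑ k, ww x k * (sg (x k) * sg (z k)) := by
    intro z
    simp only [FF, V0, mul_zero, add_zero]
    rw [← sum_neg_distrib]
    exact sum_congr rfl fun k _ => by ring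
  have hF' : ∀ t : Bool, FF (fun k => -(ww x k * sg (x k)), sg s / HH m) (V0 (Sum.inr t)) =
      sg s * sg t := by
    intro t
    simp only [FF, V0, Pi.zero_apply, mul_zero, sum_const_zero, zero_add]
    field_simp
  have hG : ∀ z : Cube m, FF (fun k => -(ww x k * sg (x k)), sg s / HH m) (V1 ε (Sum.inl z)) =
      -∑ k, ww x k * (sg (x k) * (sg (z k) * gg ε k z)) + sg s / HH m * chi ε z := by
    intro z
    simp only [FF, V1]
    rw [← sum_neg_distrib]
    congr 1
    exact sum_congr rfl fun k _ => by ring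
  have hG' : ∀ t : Bool, FF (fun k => -(ww x k * sg (x k)), sg s / HH m)
      (V1 ε (Sum.inr t)) = 0 := by
    intro t
    simp [FF, V1]
  have hGx : -∑ k, ww x k * (sg (x k) * (sg (x k) * gg ε k x)) + sg s / HH m * chi ε x = -V := by
    rw [hV]
    have : ∑ k, ww x k * (sg (x k) * (sg (x k) * gg ε k x)) = ∑ k, ww x k * gg ε k x :=
      sum_congr rfl fun k _ => by rw [← mul_assoc (sg (x k)), sg_sq, one_mul]
    rw [this]
    ring
  have hGb : -∑ k, ww x k * (sg (x k) * (sg (bar x k) * gg ε k (bar x))) +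
      sg s / HH m * chi ε (bar x) = U := by
    rw [hU]
    have : ∑ k, ww x k * (sg (x k) * (sg (bar x k) * gg ε k (bar x))) =
        -∑ k, ww x k * gg ε k (bar x) := by
      rw [← sum_neg_distrib]
      exact sum_congr rfl fun k _ => by
        rw [← mul_assoc (sg (x k)), bar_apply, sg_not, mul_neg, sg_sq]
        ring
    rw [this]
    ring
  have hA : ∀ z : Cube m, FF ((0 : Fin (m + 3) → ℝ), sg s * ((U + V) / 2 / HH m))
      (V0 (Sum.inl z)) = 0 := by
    intro z
    simp [FF, V0]
  have hA' : ∀ t : Bool, FF ((0 : Fin (m + 3) → ℝ), sg s * ((U + V) / 2 / HH m))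
      (V0 (Sum.inr t)) = sg s * sg t * ((U + V) / 2) := by
    intro t
    simp only [FF, V0, Pi.zero_apply, mul_zero, sum_const_zero, zero_add]
    field_simp
  refine ⟨(fun k => -(ww x k * sg (x k)), sg s / HH m), (0, sg s * ((U + V) / 2 / HH m)),
    fun k => ⟨fun hk => ?_, fun hk => ?_⟩⟩
  · rw [hF', sg_sq]
    rcases k with z | t
    · rw [hF]
      by_cases hz : z = bar x
      · right
        rw [hz, sum_sg_bar, sum_ww, hG', hG, hGb, hA', hA, sg_sq]
        constructor <;> linarith
      · left
        have := lt_sum_sg (ww_pos x) hz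
        rw [sum_ww] at this
        linarith
    · left
      rw [hF', sg_mul_eq, if_neg (fun h => hk (by rw [h]))]
      norm_num
  · rw [hF x, sum_sg_self, sum_ww]
    rcases k with z | t
    · left
      rw [hF]
      have := sum_sg_lt (ww_pos x) (x := x) (z := z) (fun h => hk (by rw [h]))
      rw [sum_ww] at this
      linarith
    · rw [hF']
      by_cases hst : s = t
      · left
        rw [← hst, sg_sq]
        norm_num
      · right
        rw [hG', hG, hGx, hA', hA, sg_mul_eq, if_neg hst]
        constructor <;> linarith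

/-- for small `ε > 0` all pairs are separated -/
theorem ev_sep : ∀ᶠ ε in 𝓝[>] (0 : ℝ), ∀ i j : Cube m ⊕ Bool, i ≠ j → Sep ε i j := by
  have h : ∀ x y : Cube m, ∀ᶠ ε in 𝓝[>] (0 : ℝ), x ≠ y → Sep ε (Sum.inl x) (Sum.inl y) := by
    intro x y
    by_cases hxy : x = y
    · exact Eventually.of_forall fun ε h => absurd hxy h
    · by_cases hb : y = bar x
      · refine Eventually.of_forall fun ε _ => ?_
        rw [hb]
        exact sep_bar ε x
      · rcases tau_sep (Ne.symm hxy) hb with h | h
        · filter_upwards [ev_sep_pair x y (Ne.symm hxy) hb h] with ε hε _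
          exact hε
        · have hb' : x ≠ bar y := fun e => hb (by rw [e, bar_bar])
          filter_upwards [ev_sep_pair y x hxy hb' h] with ε hε _
          exact hε.symm
  filter_upwards [eventually_all.2 fun x => eventually_all.2 (h x), self_mem_nhdsWithin]
    with ε h1 h2
  intro i j hij
  rcases i with x | s <;> rcases j with y | t
  · exact h1 x y (fun e => hij (by rw [e]))
  · exact (sep_apex h2 t x).symm
  · exact sep_apex h2 s y
  · have : t = !s := by
      revert hij
      cases s <;> cases t <;> simp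
    rw [this]
    exact sep_apices ε s

end Pool.Agent.Touch
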