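import Mathlib

/-!
# MP_7ff5fd_co: from strictly antipodal points to pairwise touching translates of a strictly convex body
-/

set_option autoImplicit false

open Metric Set Filter Topology

noncomputable section

namespace Pool.Agent.Touch

variable {E : Type*} [NormedAddCommGroup E] [InnerProductSpace ℝ E]

/-- a finite intersection of strictly convex sets is strictly convex -/
theorem strictConvex_biInter {ι : Type*} (s : Finset ι) (A : ι → Set E)
    (h : ∀ i ∈ s, StrictConvex ℝ (A i)) : StrictConvex ℝ (⋂ i ∈ s, A i) := by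
  classical
  induction s using Finset.induction_on with
  | empty => simpa using (strictConvex_univ : StrictConvex ℝ (univ : Set E))
  | insert a s ha ih =>
    rw [Finset.set_biInter_insert]
    exact (h a (Finset.mem_insert_self a s)).inter
      (ih fun i hi => h i (Finset.mem_insert_of_mem hi))

/-- `z` lies in the ball through `c` with inner normal direction `-g` and radius `R |g|` -/
theorem mem_ball_iff (z c g : E) (R : ℝ) (hR : 0 < R) :
    z ∈ closedBall (c - R • g) (R * ‖g‖) ↔
      ‖z - c‖ ^ 2 + 2 * R * inner ℝ (z - c) g ≤ 0 := by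
  have h1 : z - (c - R • g) = (z - c) + R • g := by abel
  rw [mem_closedBall, dist_eq_norm, h1,
    ← sq_le_sq₀ (norm_nonneg _) (mul_nonneg hR.le (norm_nonneg _)), norm_add_sq_real,
    norm_smul, inner_smul_right, Real.norm_of_nonneg hR.le]
  constructor <;> intro h <;> nlinarith

theorem mem_openBall_iff (z c g : E) (R : ℝ) (hR : 0 < R) :
    z ∈ ball (c - R • g) (R * ‖g‖) ↔
      ‖z - c‖ ^ 2 + 2 * R * inner ℝ (z - c) g < 0 := by
  have h1 : z - (c - R • g) = (z - c) + R • g := by abel
  rw [mem_ball, dist_eq_norm, h1,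
    ← sq_lt_sq₀ (norm_nonneg _) (mul_nonneg hR.le (norm_nonneg _)), norm_add_sq_real,
    norm_smul, inner_smul_right, Real.norm_of_nonneg hR.le]
  constructor <;> intro h <;> nlinarith

theorem exists_body_aux [FiniteDimensional ℝ E] {ι : Type*} [Fintype ι] (v : ι → E)
    (g : ι → ι → E)
    (h : ∀ i j, i ≠ j → ∀ k l, (k ≠ i ∨ l ≠ j) →
      inner ℝ (v k - v l) (g i j) < inner ℝ (v i - v j) (g i j)) :
    ∃ K : Set E, IsCompact K ∧ Convex ℝ K ∧ (interior K).Nonempty ∧ StrictConvex ℝ K ∧
      ∀ i j, i ≠ j → ((fun x => x + v i) '' K ∩ (fun x => x + v j) '' K).Nonempty ∧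
        Disjoint (interior ((fun x => x + v i) '' K)) (interior ((fun x => x + v j) '' K)) := by
  classical
  set c : ι → ι → E := fun i j => (1 / 2 : ℝ) • (v i - v j) with hc
  have hcn : ∀ i j, c j i = - c i j := fun i j => by
    simp only [hc]; rw [← smul_neg, neg_sub]
  -- the strict inequalities for the midpoints
  have hlt : ∀ i j, i ≠ j → ∀ k l, (k ≠ i ∨ l ≠ j) →
      inner ℝ (c k l - c i j) (g i j) < 0 := fun i j hij k l hkl => by
    have := h i j hij k l hkl
    simp only [hc, ← smul_sub, inner_smul_left, inner_sub_left] at this ⊢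
    simp only [conj_trivial]
    linarith
  have h0 : ∀ i j, i ≠ j → inner ℝ (0 - c i j) (g i j) < 0 := fun i j hij => by
    have := hlt i j hij i i (Or.inr hij)
    simpa [hc] using this
  -- one radius for all
  obtain ⟨R, hR, hRa, hRb⟩ : ∃ R : ℝ, 0 < R ∧
      (∀ i j, i ≠ j → ∀ k l, ‖c k l - c i j‖ ^ 2 + 2 * R * inner ℝ (c k l - c i j) (g i j) ≤ 0) ∧
      (∀ i j, i ≠ j → ‖0 - c i j‖ ^ 2 + 2 * R * inner ℝ (0 - c i j) (g i j) < 0) := by
    have e1 : ∀ i j, i ≠ j → ∀ k l, ∀ᶠ R : ℝ in atTop,
        ‖c k l - c i j‖ ^ 2 + 2 * R * inner ℝ (c k l - c i j) (g i j) ≤ 0 := fun i j hij k l => by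
      by_cases hkl : k ≠ i ∨ l ≠ j
      · have hn := hlt i j hij k l hkl
        filter_upwards [eventually_ge_atTop (‖c k l - c i j‖ ^ 2 /
          (-(2 * inner ℝ (c k l - c i j) (g i j))))] with R hR
        rw [div_le_iff₀ (by linarith)] at hR
        linarith
      · push Not at hkl
        rw [hkl.1, hkl.2]
        simp
    have e2 : ∀ i j, i ≠ j → ∀ᶠ R : ℝ in atTop,
        ‖0 - c i j‖ ^ 2 + 2 * R * inner ℝ (0 - c i j) (g i j) < 0 := fun i j hij => by
      have hn := h0 i j hij
      filter_upwards [eventually_gt_atTop (‖0 - c i j‖ ^ 2 /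
          (-(2 * inner ℝ (0 - c i j) (g i j))))] with R hR
      rw [div_lt_iff₀ (by linarith)] at hR
      linarith
    have e3 : ∀ᶠ R : ℝ in atTop, ∀ i j, i ≠ j → ∀ k l,
        ‖c k l - c i j‖ ^ 2 + 2 * R * inner ℝ (c k l - c i j) (g i j) ≤ 0 := by
      rw [eventually_all]; intro i
      rw [eventually_all]; intro j
      by_cases hij : i = j
      · exact Eventually.of_forall fun R hh => absurd hij hh
      · simp only [ne_eq, hij, not_false_eq_true, forall_true_left]
        rw [eventually_all]; intro k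
        rw [eventually_all]; intro l
        exact e1 i j hij k l
    have e4 : ∀ᶠ R : ℝ in atTop, ∀ i j, i ≠ j →
        ‖0 - c i j‖ ^ 2 + 2 * R * inner ℝ (0 - c i j) (g i j) < 0 := by
      rw [eventually_all]; intro i
      rw [eventually_all]; intro j
      by_cases hij : i = j
      · exact Eventually.of_forall fun R hh => absurd hij hh
      · simp only [ne_eq, hij, not_false_eq_true, forall_true_left]
        exact e2 i j hij
    obtain ⟨R, h1, h2, h3⟩ := ((eventually_gt_atTop (0 : ℝ)).and (e3.and e4)).exists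
    exact ⟨R, h1, h2, h3⟩
  -- the bounding ball
  obtain ⟨M, hM0, hM⟩ : ∃ M : ℝ, 0 < M ∧ ∀ i j, ‖c i j‖ ≤ M := by
    have e : ∀ᶠ M : ℝ in atTop, ∀ i j, ‖c i j‖ ≤ M := by
      rw [eventually_all]; intro i
      rw [eventually_all]; intro j
      exact eventually_ge_atTop _
    obtain ⟨M, h1, h2⟩ := ((eventually_gt_atTop (0 : ℝ)).and e).exists
    exact ⟨M, h1, h2⟩
  set P : Finset (ι × ι) := Finset.univ.filter fun p => p.1 ≠ p.2 with hP
  set A : ι × ι → Set E := fun p =>
    closedBall (c p.1 p.2 - R • g p.1 p.2) (R * ‖g p.1 p.2‖) ∩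
      closedBall (-(c p.1 p.2) - R • (-(g p.1 p.2))) (R * ‖-(g p.1 p.2)‖) with hA
  set K : Set E := closedBall 0 M ∩ ⋂ p ∈ P, A p with hK
  have memK : ∀ z, z ∈ K ↔ ‖z‖ ≤ M ∧ ∀ i j, i ≠ j →
      (‖z - c i j‖ ^ 2 + 2 * R * inner ℝ (z - c i j) (g i j) ≤ 0 ∧
      ‖z + c i j‖ ^ 2 - 2 * R * inner ℝ (z + c i j) (g i j) ≤ 0) := fun z => by
    simp only [hK, hA, hP, mem_inter_iff, mem_iInter, Finset.mem_filter, Finset.mem_univ,
      true_and, Prod.forall, mem_ball_iff _ _ _ R hR, mem_closedBall, dist_zero_right,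
      sub_neg_eq_add, inner_neg_right]
    constructor
    · rintro ⟨h1, h2⟩
      exact ⟨h1, fun i j hij => ⟨(h2 i j hij).1, by have := (h2 i j hij).2; linarith⟩⟩
    · rintro ⟨h1, h2⟩
      exact ⟨h1, fun i j hij => ⟨(h2 i j hij).1, by have := (h2 i j hij).2; linarith⟩⟩
  have hsc : StrictConvex ℝ K := by
    refine (strictConvex_closedBall ℝ 0 M).inter (strictConvex_biInter P A fun p _ => ?_)
    exact (strictConvex_closedBall ℝ _ _).inter (strictConvex_closedBall ℝ _ _)
  have hcl : IsClosed K := by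
    refine isClosed_closedBall.inter (isClosed_biInter fun p _ => ?_)
    exact isClosed_closedBall.inter isClosed_closedBall
  have hcK : ∀ k l, c k l ∈ K := fun k l => by
    rw [memK]
    refine ⟨hM k l, fun i j hij => ⟨hRa i j hij k l, ?_⟩⟩
    have := hRa i j hij l k
    rw [hcn k l] at this
    have e1 : -(c k l) - c i j = -(c k l + c i j) := by abel
    rw [e1, norm_neg, inner_neg_left] at this
    linarith
  have hint : (0 : E) ∈ interior K := by
    rw [mem_interior]
    refine ⟨ball 0 M ∩ ⋂ p ∈ P, (ball (c p.1 p.2 - R • g p.1 p.2) (R * ‖g p.1 p.2‖) ∩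
      ball (-(c p.1 p.2) - R • (-(g p.1 p.2))) (R * ‖-(g p.1 p.2)‖)), ?_, ?_, ?_⟩
    · refine inter_subset_inter ball_subset_closedBall (iInter₂_mono fun p _ => ?_)
      exact inter_subset_inter ball_subset_closedBall ball_subset_closedBall
    · refine isOpen_ball.inter (isOpen_biInter_finset fun p _ => ?_)
      exact isOpen_ball.inter isOpen_ball
    · refine ⟨mem_ball_self hM0, ?_⟩
      simp only [mem_iInter, mem_inter_iff, hP, Finset.mem_filter, Finset.mem_univ, true_and,
        mem_openBall_iff _ _ _ R hR, sub_neg_eq_add, inner_neg_right]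
      intro p hp
      have := hRb p.1 p.2 hp
      refine ⟨this, ?_⟩
      have e1 : (0 : E) - c p.1 p.2 = -(0 + c p.1 p.2) := by abel
      rw [e1, norm_neg, inner_neg_left] at this
      linarith
  refine ⟨K, ?_, hsc.convex, ⟨0, hint⟩, hsc, ?_⟩
  · exact Metric.isCompact_of_isClosed_isBounded hcl
      (isBounded_closedBall.subset inter_subset_left)
  intro i j hij
  refine ⟨⟨(1 / 2 : ℝ) • (v i + v j), ⟨c j i, hcK j i, ?_⟩, ⟨c i j, hcK i j, ?_⟩⟩, ?_⟩
  · simp only [hc]
    module
  · simp only [hc]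
    module
  rw [Set.disjoint_left]
  intro x hx1 hx2
  have hO : IsOpen (interior ((fun x => x + v i) '' K) ∩ interior ((fun x => x + v j) '' K)) :=
    isOpen_interior.inter isOpen_interior
  have hpos : 0 < inner ℝ (v i - v j) (g i j) := by
    have := h0 i j hij
    simp only [hc, zero_sub, inner_neg_left, inner_smul_left, conj_trivial] at this
    linarith
  have hcont : Tendsto (fun t : ℝ => x + t • (v i - v j)) (𝓝[>] 0) (𝓝 x) := by
    have h1 : Continuous fun t : ℝ => x + t • (v i - v j) := by fun_prop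
    have h2 := (h1.tendsto 0).mono_left (nhdsWithin_le_nhds (s := Ioi (0 : ℝ)))
    simpa using h2
  obtain ⟨t, ht, ht0⟩ := ((hcont.eventually (hO.mem_nhds ⟨hx1, hx2⟩)).and
    self_mem_nhdsWithin).exists
  have ht0 : 0 < t := ht0
  obtain ⟨z, hz, hzt⟩ := interior_subset ht.2
  obtain ⟨w, hw, hwx⟩ := interior_subset hx1
  have a1 := ((memK z).1 hz).2 i j hij
  have a2 := ((memK w).1 hw).2 i j hij
  simp only at hzt hwx
  have b1 : inner ℝ (z - c i j) (g i j) ≤ 0 := by nlinarith [a1.1, sq_nonneg ‖z - c i j‖]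
  have b2 : 0 ≤ inner ℝ (w + c i j) (g i j) := by nlinarith [a2.2, sq_nonneg ‖w + c i j‖]
  have e1 : z - c i j = (w + c i j) + t • (v i - v j) := by
    have : z = w + v i - v j + t • (v i - v j) := by
      rw [hwx]; rw [← add_sub_right_comm, ← hzt]; abel
    rw [this]
    simp only [hc]
    module
  rw [e1, inner_add_left, inner_smul_left, conj_trivial] at b1
  nlinarith [mul_pos ht0 hpos]

theorem exists_body {d N : ℕ} (v : Fin N → EuclideanSpace ℝ (Fin d))
    (h : ∀ i j, i ≠ j → ∃ f : EuclideanSpace ℝ (Fin d) →L[ℝ] ℝ, (f (v j) < f (v i)) ∧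
      ∀ k, k ≠ i → k ≠ j → f (v j) < f (v k) ∧ f (v k) < f (v i)) :
    ∃ K : Set (EuclideanSpace ℝ (Fin d)), IsCompact K ∧ Convex ℝ K ∧ (interior K).Nonempty ∧
      StrictConvex ℝ K ∧
      ∀ i j, i ≠ j → ((fun x => x + v i) '' K ∩ (fun x => x + v j) '' K).Nonempty ∧
        Disjoint (interior ((fun x => x + v i) '' K)) (interior ((fun x => x + v j) '' K)) := by
  classical
  choose! f hf using h
  refine exists_body_aux v
    (fun i j => (InnerProductSpace.toDual ℝ (EuclideanSpace ℝ (Fin d))).symm (f i j)) ?_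
  intro i j hij k l hkl
  have key : ∀ (i j : Fin N) (z : EuclideanSpace ℝ (Fin d)),
      inner ℝ z ((InnerProductSpace.toDual ℝ (EuclideanSpace ℝ (Fin d))).symm (f i j)) = f i j z :=
    fun i j z => by rw [real_inner_comm, InnerProductSpace.toDual_symm_apply]
  simp only [key, map_sub]
  obtain ⟨h1, h2⟩ := hf i j hij
  have hk : f i j (v k) ≤ f i j (v i) := by
    by_cases hk : k = i
    · rw [hk]
    · by_cases hk' : k = j
      · rw [hk']; exact h1.le
      · exact (h2 k hk hk').2.le
  have hl : f i j (v j) ≤ f i j (v l) := by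
    by_cases hl : l = j
    · rw [hl]
    · by_cases hl' : l = i
      · rw [hl']; exact h1.le
      · exact (h2 l hl' hl).1.le
  rcases hkl with hk' | hl'
  · have : f i j (v k) < f i j (v i) := by
      by_cases hkj : k = j
      · rw [hkj]; exact h1
      · exact (h2 k hk' hkj).2
    linarith
  · have : f i j (v j) < f i j (v l) := by
      by_cases hli : l = i
      · rw [hli]; exact h1
      · exact (h2 l hli hl').1
    linarith

end Pool.Agent.Touch

end
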