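import Mathlib

/-!
# From a strictly antipodal family to a strictly convex body with touching translates
-/

open Metric Filter Topology Set

open scoped RealInnerProductSpace

noncomputable section

namespace Pool.Agent.Touch.Sym

variable {E : Type*} [NormedAddCommGroup E] [InnerProductSpace ℝ E]

lemma strictConvex_iInter_of_finite {ι : Type*} [Finite ι] {s : ι → Set E}
    (h : ∀ i, StrictConvex ℝ (s i)) : StrictConvex ℝ (⋂ i, s i) := by
  intro x hx y hy hxy a b ha hb hab
  rw [interior_iInter_of_finite, mem_iInter]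
  intro i
  exact h i (mem_iInter.1 hx i) (mem_iInter.1 hy i) hxy ha hb hab

/-- the ball through `c` with outer normal `g` -/
def tb (R : ℝ) (c g : E) : Set E := closedBall (c - R • g) (R * ‖g‖)

lemma dist_tb (R : ℝ) (c g x : E) :
    dist x (c - R • g) ^ 2 - (R * ‖g‖) ^ 2 = ‖x - c‖ ^ 2 + 2 * R * ⟪x - c, g⟫ := by
  rw [dist_eq_norm]
  have : x - (c - R • g) = (x - c) + R • g := by abel
  rw [this, norm_add_sq_real, norm_smul, inner_smul_right, mul_pow, mul_pow, Real.norm_eq_abs,
    sq_abs]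
  ring

lemma mem_tb {R : ℝ} (hR : 0 < R) {c g x : E} :
    x ∈ tb R c g ↔ ‖x - c‖ ^ 2 + 2 * R * ⟪x - c, g⟫ ≤ 0 := by
  unfold tb
  rw [mem_closedBall, ← sq_le_sq₀ dist_nonneg (by positivity), ← dist_tb, sub_nonpos]

lemma mem_interior_tb {R : ℝ} (hR : 0 < R) {c g x : E} (hg : g ≠ 0) :
    x ∈ interior (tb R c g) ↔ ‖x - c‖ ^ 2 + 2 * R * ⟪x - c, g⟫ < 0 := by
  unfold tb
  have hg' : 0 < ‖g‖ := norm_pos_iff.2 hg
  rw [interior_closedBall _ (by positivity), mem_ball, ← sq_lt_sq₀ dist_nonneg (by positivity),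
    ← dist_tb, sub_neg]

/-- normalised antisymmetric functionals -/
lemma exists_normals {N : ℕ} (v : Fin N → E)
    (h : ∀ i j, i ≠ j → ∃ g : E, ∀ k, (k ≠ i → ⟪v k, g⟫ < ⟪v i, g⟫) ∧
      (k ≠ j → ⟪v j, g⟫ < ⟪v k, g⟫)) :
    ∃ g : Fin N → Fin N → E, ∀ i j, i ≠ j → g j i = - g i j ∧ ⟪v i - v j, g i j⟫ = 1 ∧
      ∀ k, (k ≠ i → ⟪v k, g i j⟫ < ⟪v i, g i j⟫) ∧ (k ≠ j → ⟪v j, g i j⟫ < ⟪v k, g i j⟫) := by
  choose! g hg using h
  -- normalise
  set r : Fin N → Fin N → E := fun i j => (⟪v i - v j, g i j⟫)⁻¹ • g i j with hr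
  have hpos : ∀ i j, i ≠ j → 0 < ⟪v i - v j, g i j⟫ := by
    intro i j hij
    have := (hg i j hij i).2 hij
    rw [inner_sub_left]
    linarith
  have hr1 : ∀ i j, i ≠ j → ⟪v i - v j, r i j⟫ = 1 := by
    intro i j hij
    rw [hr]
    simp only [inner_smul_right]
    exact inv_mul_cancel₀ (hpos i j hij).ne'
  have hr2 : ∀ i j, i ≠ j → ∀ k, (k ≠ i → ⟪v k, r i j⟫ < ⟪v i, r i j⟫) ∧
      (k ≠ j → ⟪v j, r i j⟫ < ⟪v k, r i j⟫) := by
    intro i j hij k
    have hp := inv_pos.2 (hpos i j hij)
    rw [hr]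
    simp only [inner_smul_right]
    exact ⟨fun hk => mul_lt_mul_of_pos_left ((hg i j hij k).1 hk) hp,
      fun hk => mul_lt_mul_of_pos_left ((hg i j hij k).2 hk) hp⟩
  refine ⟨fun i j => if i < j then r i j else - r j i, fun i j hij => ?_⟩
  rcases lt_or_gt_of_ne hij with hlt | hlt
  · simp only [if_pos hlt, if_neg hlt.not_gt]
    exact ⟨trivial, hr1 i j hij, hr2 i j hij⟩
  · simp only [if_pos hlt, if_neg hlt.not_gt, neg_neg, inner_neg_right]
    refine ⟨trivial, ?_, fun k => ⟨fun hk => ?_, fun hk => ?_⟩⟩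
    · rw [← inner_neg_left, neg_sub]
      exact hr1 j i hij.symm
    · linarith [(hr2 j i hij.symm k).2 hk]
    · linarith [(hr2 j i hij.symm k).1 hk]

/-- A strictly antipodal family (for any two of the points there is a linear functional which
attains its maximum over the family only at the first and its minimum only at the second) gives a
centrally symmetric strictly convex body with pairwise touching translates. -/
theorem exists_body [FiniteDimensional ℝ E] {N : ℕ} (v : Fin N → E)
    (h : ∀ i j, i ≠ j → ∃ g : E, ∀ k, (k ≠ i → ⟪v k, g⟫ < ⟪v i, g⟫) ∧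
      (k ≠ j → ⟪v j, g⟫ < ⟪v k, g⟫)) :
    ∃ K : Set E, IsCompact K ∧ Convex ℝ K ∧ (interior K).Nonempty ∧ StrictConvex ℝ K ∧
      (∀ x ∈ K, -x ∈ K) ∧
      ∀ i j : Fin N, i ≠ j →
        ((fun x => x + v i) '' K ∩ (fun x => x + v j) '' K).Nonempty ∧
        Disjoint (interior ((fun x => x + v i) '' K)) (interior ((fun x => x + v j) '' K)) := by
  obtain ⟨g, hg⟩ := exists_normals v h
  set c : Fin N → Fin N → E := fun i j => (1 / 2 : ℝ) • (v i - v j) with hc
  have hcg : ∀ i j, i ≠ j → ⟪c i j, g i j⟫ = 1 / 2 := by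
    intro i j hij
    rw [hc]
    simp only [inner_smul_left]
    rw [(hg i j hij).2.1]
    norm_num
  have hcg' : ∀ i j k l, i ≠ j → (k, l) ≠ (i, j) → ⟪c k l, g i j⟫ < 1 / 2 := by
    intro i j k l hij hkl
    have h1 := ((hg i j hij).2.2 k).1
    have h2 := ((hg i j hij).2.2 l).2
    have h3 := (hg i j hij).2.1
    rw [inner_sub_left] at h3
    rw [hc]
    simp only [inner_smul_left, inner_sub_left]
    have h4 : ⟪v k, g i j⟫ ≤ ⟪v i, g i j⟫ := by
      by_cases e : k = i
      · rw [e]
      · exact (h1 e).le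
    have h5 : ⟪v j, g i j⟫ ≤ ⟪v l, g i j⟫ := by
      by_cases e : l = j
      · rw [e]
      · exact (h2 e).le
    have h6 : ⟪v k, g i j⟫ - ⟪v l, g i j⟫ < 1 := by
      by_cases e : k = i
      · have e' : l ≠ j := fun e' => hkl (by rw [e, e'])
        have := h2 e'
        linarith
      · have := h1 e
        linarith
    norm_num
    linarith
  have hg0 : ∀ i j, i ≠ j → g i j ≠ 0 := by
    intro i j hij h0
    have := (hg i j hij).2.1
    rw [h0, inner_zero_right] at this
    exact zero_ne_one this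
  -- choice of the radius
  have ev1 : ∀ i j k l : Fin N, ∀ᶠ R : ℝ in atTop, i ≠ j → c k l ∈ tb R (c i j) (g i j) := by
    intro i j k l
    by_cases hij : i = j
    · exact Eventually.of_forall fun R h => absurd hij h
    · by_cases hkl : (k, l) = (i, j)
      · filter_upwards [eventually_gt_atTop (0 : ℝ)] with R hR _
        have hk : k = i := (Prod.ext_iff.1 hkl).1
        have hl : l = j := (Prod.ext_iff.1 hkl).2
        rw [mem_tb hR, hk, hl, sub_self]
        simp
      · have h1 := hcg' i j k l hij hkl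
        have h2 := hcg i j hij
        have h3 : 0 < 1 / 2 - ⟪c k l, g i j⟫ := by linarith
        filter_upwards [eventually_gt_atTop (0 : ℝ),
          eventually_ge_atTop (‖c k l - c i j‖ ^ 2 / (2 * (1 / 2 - ⟪c k l, g i j⟫)))]
          with R hR hR2 _
        rw [mem_tb hR, inner_sub_left, h2]
        rw [div_le_iff₀ (by linarith)] at hR2
        nlinarith
  have ev2 : ∀ i j : Fin N, ∀ᶠ R : ℝ in atTop, i ≠ j → (0 : E) ∈ interior (tb R (c i j) (g i j)) := by
    intro i j
    by_cases hij : i = j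
    · exact Eventually.of_forall fun R h => absurd hij h
    · filter_upwards [eventually_gt_atTop (0 : ℝ), eventually_gt_atTop (‖c i j‖ ^ 2)]
        with R hR hR2 _
      rw [mem_interior_tb hR (hg0 i j hij), zero_sub, norm_neg, inner_neg_left, hcg i j hij]
      linarith
  have ev3 : ∀ k l : Fin N, ∀ᶠ R : ℝ in atTop, ‖c k l‖ ≤ R :=
    fun k l => eventually_ge_atTop _
  obtain ⟨R, hR0, hR1, hR2, hR3⟩ : ∃ R : ℝ, 0 < R ∧
      (∀ i j k l : Fin N, i ≠ j → c k l ∈ tb R (c i j) (g i j)) ∧
      (∀ i j : Fin N, i ≠ j → (0 : E) ∈ interior (tb R (c i j) (g i j))) ∧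
      (∀ k l : Fin N, ‖c k l‖ ≤ R) := by
    have := (eventually_gt_atTop (0 : ℝ)).and
      ((eventually_all.2 fun i => eventually_all.2 fun j => eventually_all.2 fun k =>
        eventually_all.2 fun l => ev1 i j k l).and
      ((eventually_all.2 fun i => eventually_all.2 fun j => ev2 i j).and
      (eventually_all.2 fun k => eventually_all.2 fun l => ev3 k l)))
    exact this.exists
  set B : {p : Fin N × Fin N // p.1 ≠ p.2} → Set E :=
    fun p => tb R (c p.1.1 p.1.2) (g p.1.1 p.1.2) with hB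
  set K : Set E := closedBall 0 R ∩ ⋂ p, B p with hK
  have hsc : StrictConvex ℝ K :=
    (strictConvex_closedBall ℝ (0 : E) R).inter
      (strictConvex_iInter_of_finite fun p => strictConvex_closedBall ℝ _ _)
  have hcK : ∀ k l, c k l ∈ K := by
    intro k l
    refine ⟨?_, mem_iInter.2 fun p => hR1 _ _ _ _ p.2⟩
    rw [mem_closedBall, dist_zero_right]
    exact hR3 k l
  have hint : interior K = ball 0 R ∩ ⋂ p, interior (B p) := by
    rw [hK, interior_inter, interior_iInter_of_finite, interior_closedBall _ hR0.ne']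
  have hhalf : ∀ x ∈ interior K, ∀ i j, i ≠ j → ⟪x, g i j⟫ < 1 / 2 := by
    intro x hx i j hij
    rw [hint] at hx
    have h1 := mem_iInter.1 hx.2 ⟨(i, j), hij⟩
    rw [hB] at h1
    simp only at h1
    rw [mem_interior_tb hR0 (hg0 i j hij), inner_sub_left, hcg i j hij] at h1
    by_contra hcon
    push Not at hcon
    have : 0 ≤ 2 * R * (⟪x, g i j⟫ - 1 / 2) := by
      have := sub_nonneg.2 hcon
      positivity
    nlinarith [sq_nonneg ‖x - c i j‖]
  refine ⟨K, ?_, hsc.convex, ⟨0, ?_⟩, hsc, ?_, ?_⟩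
  · have hcl : IsClosed K := isClosed_closedBall.inter
      (isClosed_iInter fun p => isClosed_closedBall)
    exact (isCompact_closedBall (0 : E) R).of_isClosed_subset hcl inter_subset_left
  · rw [hint]
    exact ⟨mem_ball_self hR0, mem_iInter.2 fun p => hR2 _ _ p.2⟩
  · intro x hx
    refine ⟨?_, mem_iInter.2 fun p => ?_⟩
    · have := hx.1
      rw [mem_closedBall, dist_zero_right] at this ⊢
      rwa [norm_neg]
    · have h1 := mem_iInter.1 hx.2 ⟨(p.1.2, p.1.1), p.2.symm⟩
      rw [hB] at h1 ⊢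
      simp only at h1 ⊢
      rw [mem_tb hR0] at h1 ⊢
      have e1 : c p.1.2 p.1.1 = - c p.1.1 p.1.2 := by
        rw [hc]
        simp only
        rw [← smul_neg, neg_sub]
      have e2 : -x - c p.1.1 p.1.2 = -(x - c p.1.2 p.1.1) := by
        rw [e1]
        abel
      rw [(hg _ _ p.2).1, inner_neg_right] at h1
      rw [e2, norm_neg, inner_neg_left]
      exact h1
  · intro i j hij
    constructor
    · refine ⟨(1 / 2 : ℝ) • (v i + v j), ⟨c j i, hcK j i, ?_⟩, ⟨c i j, hcK i j, ?_⟩⟩
      · rw [hc]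
        simp only
        module
      · rw [hc]
        simp only
        module
    · rw [Set.disjoint_left]
      intro y hy1 hy2
      have himg : ∀ w : E, interior ((fun x => x + w) '' K) = (fun x => x + w) '' interior K :=
        fun w => ((Homeomorph.addRight w).image_interior K).symm
      rw [himg] at hy1 hy2
      obtain ⟨x1, hx1, rfl⟩ := hy1
      obtain ⟨x2, hx2, he⟩ := hy2
      have h1 := hhalf x1 hx1 j i hij.symm
      have h2 := hhalf x2 hx2 i j hij
      rw [(hg i j hij).1, inner_neg_right] at h1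
      have h3 := (hg i j hij).2.1
      have h4 : v i - v j = x2 - x1 := by
        simp only at he
        rw [sub_eq_sub_iff_add_eq_add, add_comm, ← he]
      rw [h4, inner_sub_left] at h3
      linarith

end Pool.Agent.Touch.Sym
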