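import Pool.Agent.Work.MP_7ff5fd_co.Apex
import Pool.Agent.Work.MP_7ff5fd_co.BodySym

/-!
# The configuration in `ℝ^d`
-/

open Finset Filter Topology

open scoped RealInnerProductSpace

noncomputable section

namespace Pool.Agent.Touch

variable {m : ℕ}

lemma ev_lex {A B : ℝ} (h : LexPos A B) (C : ℝ) :
    ∀ᶠ δ in 𝓝[>] (0 : ℝ), 0 < A + δ * B + δ ^ 2 * C := by
  rcases h with h | ⟨h1, h2⟩
  · have hc : Continuous fun δ : ℝ => A + δ * B + δ ^ 2 * C := by fun_prop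
    exact ev_of_continuous hc (by simpa using h)
  · have hc : Continuous fun δ : ℝ => B + δ * C := by fun_prop
    filter_upwards [ev_of_continuous hc (by simpa using h2), self_mem_nhdsWithin] with δ h3 h4
    rw [h1]
    have := mul_pos h4 h3
    nlinarith

/-- the points of the configuration -/
def PP (ε δ : ℝ) (i : Cube m ⊕ Bool) : (Fin (m + 3) → ℝ) × ℝ := V0 i + δ • V1 ε i

lemma exists_config (m : ℕ) : ∃ P : Cube m ⊕ Bool → (Fin (m + 3) → ℝ) × ℝ,
    ∀ i j, i ≠ j → ∃ a : (Fin (m + 3) → ℝ) × ℝ, ∀ k,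
      (k ≠ i → FF a (P k) < FF a (P i)) ∧ (k ≠ j → FF a (P j) < FF a (P k)) := by
  obtain ⟨ε, hε⟩ := (ev_sep (m := m)).exists
  have h : ∀ i j : Cube m ⊕ Bool, ∀ᶠ δ in 𝓝[>] (0 : ℝ), i ≠ j →
      ∃ a : (Fin (m + 3) → ℝ) × ℝ, ∀ k,
      (k ≠ i → FF a (PP ε δ k) < FF a (PP ε δ i)) ∧
      (k ≠ j → FF a (PP ε δ j) < FF a (PP ε δ k)) := by
    intro i j
    by_cases hij : i = j
    · exact Eventually.of_forall fun δ h => absurd hij h
    · obtain ⟨b0, b1, hb⟩ := hε i j hij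
      have h1 : ∀ k : Cube m ⊕ Bool, ∀ᶠ δ in 𝓝[>] (0 : ℝ),
          k ≠ i → FF (b0 + δ • b1) (PP ε δ k) < FF (b0 + δ • b1) (PP ε δ i) := by
        intro k
        by_cases hk : k = i
        · exact Eventually.of_forall fun δ h => absurd hk h
        · filter_upwards [ev_lex ((hb k).1 hk) (FF b1 (V1 ε i) - FF b1 (V1 ε k))] with δ hδ _
          unfold PP
          simp only [FF_add_left, FF_add_right, FF_smul_left, FF_smul_right]
          nlinarith
      have h2 : ∀ k : Cube m ⊕ Bool, ∀ᶠ δ in 𝓝[>] (0 : ℝ),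
          k ≠ j → FF (b0 + δ • b1) (PP ε δ j) < FF (b0 + δ • b1) (PP ε δ k) := by
        intro k
        by_cases hk : k = j
        · exact Eventually.of_forall fun δ h => absurd hk h
        · filter_upwards [ev_lex ((hb k).2 hk) (FF b1 (V1 ε k) - FF b1 (V1 ε j))] with δ hδ _
          unfold PP
          simp only [FF_add_left, FF_add_right, FF_smul_left, FF_smul_right]
          nlinarith
      filter_upwards [eventually_all.2 h1, eventually_all.2 h2] with δ h3 h4 _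
      exact ⟨b0 + δ • b1, fun k => ⟨h3 k, h4 k⟩⟩
  obtain ⟨δ, hδ⟩ := (eventually_all.2 fun i => eventually_all.2 (h i)).exists
  exact ⟨PP ε δ, hδ⟩

/-- coordinates -/
def emb (v : (Fin (m + 3) → ℝ) × ℝ) : EuclideanSpace ℝ (Fin (m + 4)) :=
  WithLp.toLp 2 (Fin.cons v.2 v.1)

lemma inner_emb (v a : (Fin (m + 3) → ℝ) × ℝ) : ⟪emb v, emb a⟫ = FF a v := by
  simp only [emb, PiLp.inner_apply, FF, Fin.sum_univ_succ, Fin.cons_zero, Fin.cons_succ,
    RCLike.inner_apply, conj_trivial]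
  ring

/-- `2 ^ (d - 1) + 2` strictly antipodal points in `ℝ^d`, `d ≥ 4` -/
theorem exists_points (d : ℕ) (hd : 4 ≤ d) :
    ∃ v : Fin (2 ^ (d - 1) + 2) → EuclideanSpace ℝ (Fin d),
      ∀ i j, i ≠ j → ∃ g : EuclideanSpace ℝ (Fin d), ∀ k,
        (k ≠ i → ⟪v k, g⟫ < ⟪v i, g⟫) ∧ (k ≠ j → ⟪v j, g⟫ < ⟪v k, g⟫) := by
  obtain ⟨m, rfl⟩ : ∃ m, d = m + 4 := ⟨d - 4, by omega⟩
  obtain ⟨P, hP⟩ := exists_config m
  have hcard : Fintype.card (Cube m ⊕ Bool) = 2 ^ (m + 4 - 1) + 2 := by simp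
  let e : Fin (2 ^ (m + 4 - 1) + 2) ≃ Cube m ⊕ Bool := (Fintype.equivFinOfCardEq hcard).symm
  refine ⟨fun i => emb (P (e i)), fun i j hij => ?_⟩
  obtain ⟨a, ha⟩ := hP (e i) (e j) (fun h => hij (e.injective h))
  refine ⟨emb a, fun k => ?_⟩
  simp only [inner_emb]
  exact ⟨fun hk => (ha (e k)).1 (fun h => hk (e.injective h)),
    fun hk => (ha (e k)).2 (fun h => hk (e.injective h))⟩

end Pool.Agent.Touch
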