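import Mathlib

/-!
# Strictly antipodal sets near the bipyramid over a cube: definitions

`Cube m` is the vertex set of the cube of dimension `n = m + 3`; the points of the configuration are
indexed by `Cube m ⊕ Bool` (cube vertices, top and bottom apex) and live in `(Fin (m+3) → ℝ) × ℝ`.
-/

open Finset

noncomputable section

namespace Pool.Agent.Touch

/-- vertices of the cube `{-1, 1}^(m+3)` -/
abbrev Cube (m : ℕ) := Fin (m + 3) → Bool

/-- the sign of a Boolean -/
def sg (b : Bool) : ℝ := if b then 1 else -1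

@[simp] lemma sg_true : sg true = 1 := rfl
@[simp] lemma sg_false : sg false = -1 := by simp [sg]

lemma sg_not (b : Bool) : sg (!b) = - sg b := by cases b <;> simp

lemma sg_sq (b : Bool) : sg b * sg b = 1 := by cases b <;> simp

lemma sg_sq' (b : Bool) : sg b ^ 2 = 1 := by cases b <;> simp

lemma abs_sg (b : Bool) : |sg b| = 1 := by cases b <;> simp

lemma sg_mul_le (a b : Bool) : sg a * sg b ≤ 1 := by cases a <;> cases b <;> simp

lemma neg_le_sg_mul (a b : Bool) : -1 ≤ sg a * sg b := by
  cases a <;> cases b <;> simp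

lemma sg_mul_eq (a b : Bool) : sg a * sg b = if a = b then 1 else -1 := by
  cases a <;> cases b <;> simp

lemma sg_of_ne {a b : Bool} (h : a ≠ b) : sg b = - sg a := by
  cases a <;> cases b <;> simp_all

variable {m : ℕ}

/-- the antipodal vertex -/
def bar (x : Cube m) : Cube m := fun k => !(x k)

@[simp] lemma bar_apply (x : Cube m) (k : Fin (m + 3)) : bar x k = !(x k) := rfl

@[simp] lemma bar_bar (x : Cube m) : bar (bar x) = x := by ext k; simp

lemma bar_ne (x : Cube m) : bar x ≠ x := by
  intro h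
  have := congrFun h 0
  simp at this

/-- the base of the super-increasing scale -/
def KK (m : ℕ) : ℝ := 32 * (m + 3)

lemma KK_ge (m : ℕ) : 96 ≤ KK m := by
  unfold KK
  have : (0 : ℝ) ≤ m := Nat.cast_nonneg m
  linarith

lemma KK_pos (m : ℕ) : 0 < KK m := by linarith [KK_ge m]

/-- the rank of the antipodal class of `x` -/
def rk (x : Cube m) : ℕ := (Fintype.equivFin (Cube m) (fun k => xor (x k) (x 0))).val

lemma rk_bar (x : Cube m) : rk (bar x) = rk x := by
  unfold rk
  congr 3
  ext k
  simp [bar]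

lemma eq_or_eq_bar_of_rk {x y : Cube m} (h : rk x = rk y) : y = x ∨ y = bar x := by
  unfold rk at h
  have h1 : (fun k => xor (x k) (x 0)) = (fun k => xor (y k) (y 0)) :=
    (Fintype.equivFin (Cube m)).injective (Fin.ext h)
  by_cases h0 : x 0 = y 0
  · left
    ext k
    have := congrFun h1 k
    simp only [h0] at this
    have h2 : x k = y k := by
      revert this
      cases x k <;> cases y k <;> cases y 0 <;> simp
    rw [h2]
  · right
    ext k
    have := congrFun h1 k
    have h2 : y k = !(x k) := by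
      revert this h0
      cases x k <;> cases y k <;> cases y 0 <;> cases x 0 <;> simp
    rw [h2, bar_apply]

/-- the odd super-increasing function -/
def tau (x : Cube m) : ℝ := sg (x 0) * KK m ^ rk x

lemma tau_bar (x : Cube m) : tau (bar x) = - tau x := by
  unfold tau
  rw [rk_bar, bar_apply, sg_not]
  ring

lemma abs_tau (x : Cube m) : |tau x| = KK m ^ rk x := by
  unfold tau
  rw [abs_mul, abs_sg, one_mul, abs_of_pos (pow_pos (KK_pos m) _)]

lemma one_le_abs_tau (x : Cube m) : 1 ≤ |tau x| := by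
  rw [abs_tau]
  exact one_le_pow₀ (by linarith [KK_ge m])

/-- an upper bound for `|tau|` -/
def TT (m : ℕ) : ℝ := KK m ^ (2 ^ (m + 3))

lemma one_le_TT (m : ℕ) : 1 ≤ TT m := one_le_pow₀ (by linarith [KK_ge m])

lemma rk_lt (x : Cube m) : rk x < 2 ^ (m + 3) := by
  have h := (Fintype.equivFin (Cube m) (fun k => xor (x k) (x 0))).isLt
  have hc : Fintype.card (Cube m) = 2 ^ (m + 3) := by simp
  unfold rk
  omega

lemma abs_tau_le (x : Cube m) : |tau x| ≤ TT m := by
  rw [abs_tau]
  exact pow_le_pow_right₀ (by linarith [KK_ge m]) (rk_lt x).le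

/-- super-increasing: different antipodal classes are separated by a factor `KK m` -/
lemma tau_sep {x y : Cube m} (h1 : y ≠ x) (h2 : y ≠ bar x) :
    KK m * |tau y| ≤ |tau x| ∨ KK m * |tau x| ≤ |tau y| := by
  have hr : rk x ≠ rk y := fun h => by
    rcases eq_or_eq_bar_of_rk h with h | h
    · exact h1 h
    · exact h2 h
  have hK : 1 ≤ KK m := by linarith [KK_ge m]
  rw [abs_tau, abs_tau, ← pow_succ', ← pow_succ']
  rcases Nat.lt_or_gt_of_ne hr with h | h
  · right
    exact pow_le_pow_right₀ hK h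
  · left
    exact pow_le_pow_right₀ hK h

/-- the height function -/
def chi (ε : ℝ) (x : Cube m) : ℝ := tau x + ε * |tau x|

/-- the product of the first three signs -/
def pr (x : Cube m) : ℝ := sg (x 0) * sg (x 1) * sg (x 2)

lemma pr_bar (x : Cube m) : pr (bar x) = - pr x := by
  unfold pr
  simp only [bar_apply, sg_not]
  ring

lemma pr_sq (x : Cube m) : pr x = 1 ∨ pr x = -1 := by
  unfold pr
  cases x 0 <;> cases x 1 <;> cases x 2 <;> simp

/-- the two special coordinates -/
def om (k : Fin (m + 3)) : ℝ := if k = 0 then 1 else if k = 1 then -1 else 0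

/-- scale of the special terms -/
def WW (m : ℕ) : ℝ := 32 * TT m ^ 2

/-- height of the apices -/
def HH (m : ℕ) : ℝ := 1 / (4 * TT m)

/-- weight of the special coordinates -/
def mu (m : ℕ) : ℝ := 1 / (16 * WW m)

lemma TT_pos (m : ℕ) : 0 < TT m := by linarith [one_le_TT m]

lemma WW_pos (m : ℕ) : 0 < WW m := by
  unfold WW
  have := TT_pos m
  positivity

lemma HH_pos (m : ℕ) : 0 < HH m := by
  unfold HH
  have := TT_pos m
  positivity

lemma mu_pos (m : ℕ) : 0 < mu m := by
  unfold mu
  have := WW_pos m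
  positivity

lemma WW_mul_mu (m : ℕ) : WW m * mu m = 1 / 16 := by
  unfold mu
  have := (WW_pos m).ne'
  field_simp

lemma mu_le_one (m : ℕ) : mu m ≤ 1 := by
  have h1 := WW_mul_mu m
  have h2 : 1 ≤ WW m := by
    unfold WW
    nlinarith [one_le_TT m]
  have h3 := mu_pos m
  nlinarith

/-- radial perturbation of the coordinate `k` -/
def gg (ε : ℝ) (k : Fin (m + 3)) (x : Cube m) : ℝ :=
  -(chi ε x) ^ 2 + ε / 2 * WW m * om k * pr x

/-- the points of the configuration, limit position -/
def V0 : Cube m ⊕ Bool → (Fin (m + 3) → ℝ) × ℝ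
  | Sum.inl x => (fun k => sg (x k), 0)
  | Sum.inr s => (0, sg s * HH m)

/-- the points of the configuration, first order perturbation -/
def V1 (ε : ℝ) : Cube m ⊕ Bool → (Fin (m + 3) → ℝ) × ℝ
  | Sum.inl x => (fun k => sg (x k) * gg ε k x, chi ε x)
  | Sum.inr _ => 0

/-- the pairing -/
def FF (a v : (Fin (m + 3) → ℝ) × ℝ) : ℝ := ∑ k, a.1 k * v.1 k + a.2 * v.2

lemma FF_add_left (a b v : (Fin (m + 3) → ℝ) × ℝ) : FF (a + b) v = FF a v + FF b v := by
  simp only [FF, Prod.fst_add, Prod.snd_add, Pi.add_apply, add_mul, sum_add_distrib]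
  ring

lemma FF_smul_left (r : ℝ) (a v : (Fin (m + 3) → ℝ) × ℝ) : FF (r • a) v = r * FF a v := by
  simp only [FF, Prod.smul_fst, Prod.smul_snd, Pi.smul_apply, smul_eq_mul, mul_add, mul_sum,
    mul_assoc]

lemma FF_comm (a v : (Fin (m + 3) → ℝ) × ℝ) : FF a v = FF v a := by
  simp only [FF, mul_comm]

lemma FF_add_right (a v w : (Fin (m + 3) → ℝ) × ℝ) : FF a (v + w) = FF a v + FF a w := by
  rw [FF_comm, FF_add_left, FF_comm v, FF_comm w]

lemma FF_smul_right (r : ℝ) (a v : (Fin (m + 3) → ℝ) × ℝ) : FF a (r • v) = r * FF a v := by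
  rw [FF_comm, FF_smul_left, FF_comm v]

lemma FF_neg_left (a v : (Fin (m + 3) → ℝ) × ℝ) : FF (-a) v = - FF a v := by
  have := FF_smul_left (-1) a v
  simpa using this

lemma FF_sub_right (a v w : (Fin (m + 3) → ℝ) × ℝ) : FF a (v - w) = FF a v - FF a w := by
  have h : v - w = v + (-1 : ℝ) • w := by simp [sub_eq_add_neg]
  rw [h, FF_add_right, FF_smul_right]
  ring

/-- lexicographic positivity of a first order expansion -/
def LexPos (A B : ℝ) : Prop := 0 < A ∨ (A = 0 ∧ 0 < B)

/-- `i` is the strict maximum and `j` the strict minimum of a functional, for small perturbation -/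
def Sep (ε : ℝ) (i j : Cube m ⊕ Bool) : Prop :=
  ∃ a0 a1 : (Fin (m + 3) → ℝ) × ℝ, ∀ k,
    (k ≠ i → LexPos (FF a0 (V0 i) - FF a0 (V0 k))
      (FF a0 (V1 ε i) - FF a0 (V1 ε k) + (FF a1 (V0 i) - FF a1 (V0 k)))) ∧
    (k ≠ j → LexPos (FF a0 (V0 k) - FF a0 (V0 j))
      (FF a0 (V1 ε k) - FF a0 (V1 ε j) + (FF a1 (V0 k) - FF a1 (V0 j))))

lemma Sep.symm {ε : ℝ} {i j : Cube m ⊕ Bool} (h : Sep ε i j) : Sep ε j i := by
  obtain ⟨a0, a1, h⟩ := h
  refine ⟨-a0, -a1, fun k => ⟨fun hk => ?_, fun hk => ?_⟩⟩
  · have := (h k).2 hk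
    simp only [FF_neg_left]
    unfold LexPos at *
    rcases this with h | ⟨h1, h2⟩
    · left; linarith
    · right; constructor <;> linarith
  · have := (h k).1 hk
    simp only [FF_neg_left]
    unfold LexPos at *
    rcases this with h | ⟨h1, h2⟩
    · left; linarith
    · right; constructor <;> linarith

end Pool.Agent.Touch
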