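import Pool.Agent.Work.MP_7ff5fd_co.Pair

/-!
# All pairs are separated to first order, for small `ε > 0`
-/

open Finset Filter Topology

noncomputable section

namespace Pool.Agent.Touch

variable {m : ℕ}

lemma continuous_chi (x : Cube m) : Continuous fun ε : ℝ => chi ε x := by
  unfold chi
  fun_prop

lemma continuous_PhX (x y z : Cube m) : Continuous fun ε : ℝ => PhX ε x y z := by
  unfold PhX chi
  fun_prop

lemma continuous_PhY (x y z : Cube m) : Continuous fun ε : ℝ => PhY ε x y z := by
  unfold PhY chi
  fun_prop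

lemma continuous_lam (x y : Cube m) : Continuous fun ε : ℝ => lam ε x y := by
  unfold lam
  have h1 := continuous_PhX x y (bar y)
  have h2 := continuous_PhY x y (bar x)
  fun_prop

lemma MM_le (x y : Cube m) : 32 * MM x y ≤ KK m := by
  unfold MM KK
  have h1 : (univ.filter (fun k => x k = y k)).card ≤ m + 3 := by
    have := card_le_univ (univ.filter (fun k => x k = y k))
    simpa using this
  have h2 : ((univ.filter (fun k => x k = y k)).card : ℝ) ≤ m + 3 := by exact_mod_cast h1
  linarith

lemma MM_pos {x y : Cube m} (h : y ≠ bar x) : 1 ≤ MM x y := by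
  obtain ⟨k, hk⟩ : ∃ k, x k = y k := by
    by_contra hc
    push Not at hc
    refine h (funext fun k => ?_)
    rw [bar_apply]
    have := hc k
    revert this
    cases x k <;> cases y k <;> simp
  unfold MM
  have : 0 < (univ.filter (fun k => x k = y k)).card :=
    card_pos.2 ⟨k, by simp [hk]⟩
  exact_mod_cast this

lemma JJ_pos {x z : Cube m} (h : z ≠ x) : 1 ≤ JJ x z := by
  obtain ⟨k, hk⟩ : ∃ k, x k ≠ z k := by
    by_contra hc
    push Not at hc
    exact h (funext fun k => (hc k).symm)
  unfold JJ
  have : 0 < (univ.filter (fun k => x k ≠ z k)).card :=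
    card_pos.2 ⟨k, by simp [hk]⟩
  exact_mod_cast this

/-- `x` and `w` agree exactly where `x` and `y` differ -/
lemma JJ_bar (x y : Cube m) : JJ x (bar y) = MM x y := by
  unfold JJ MM
  congr 2
  ext k
  simp only [mem_filter, mem_univ, true_and, bar_apply]
  cases x k <;> cases y k <;> simp

lemma MM_comm (x y : Cube m) : MM x y = MM y x := by
  unfold MM
  congr 2
  ext k
  simp only [mem_filter, mem_univ, true_and]
  exact eq_comm

lemma JJ_lt {x y z : Cube m} (hz : ∀ k, x k ≠ y k → z k = x k) (h : z ≠ bar y) :
    JJ x z + 1 ≤ MM x y := by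
  unfold JJ MM
  have h1 : (univ.filter (fun k => x k ≠ z k)) ⊂ (univ.filter (fun k => x k = y k)) := by
    rw [ssubset_iff_of_subset]
    · by_contra hc
      push Not at hc
      refine h (funext fun k => ?_)
      rw [bar_apply]
      by_cases hk : x k = y k
      · have := hc k (by simp [hk])
        simp only [mem_filter, mem_univ, true_and] at this
        revert this hk
        cases x k <;> cases y k <;> cases z k <;> simp
      · rw [hz k hk]
        revert hk
        cases x k <;> cases y k <;> simp
    · intro k hk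
      simp only [mem_filter, mem_univ, true_and] at hk ⊢
      by_contra hc
      exact hk (hz k hc).symm
  have h2 := card_lt_card h1
  exact_mod_cast h2

lemma lam_zero (x y : Cube m) :
    lam 0 x y = SS x y * ((tau x - th x) ^ 2 - (tau y + th x) ^ 2) / (2 * MM x y) := by
  unfold lam PhX PhY
  rw [chi_zero, chi_zero, chi_zero, chi_zero, tau_bar, tau_bar]
  rw [show (4 * MM x y) = 2 * (2 * MM x y) by ring, ← div_div]
  congr 1
  ring

lemma CX_zero {x y z : Cube m} (hne : y ≠ x) (hbar : y ≠ bar x)
    (hxy : KK m * |tau y| ≤ |tau x|) (hz : ∀ k, x k ≠ y k → z k = x k) (hzx : z ≠ x)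
    (hzy : z ≠ bar y) : 0 < PhX 0 x y z + 2 * lam 0 x y * JJ x z := by
  have hM := MM_pos hbar
  have hJ := JJ_lt hz hzy
  have hS := SS_pos hne
  have hzbar : z ≠ bar x := by
    obtain ⟨k, hk⟩ : ∃ k, x k ≠ y k := by
      by_contra hc
      push Not at hc
      exact hne (funext fun k => (hc k).symm)
    intro h
    have h1 := hz k hk
    rw [h, bar_apply] at h1
    simp at h1
  have hu : 0 < |tau x| := by linarith [one_le_abs_tau x]
  have hJ0 : 0 ≤ JJ x z := by unfold JJ; positivity
  have key := core_ineq (u := |tau x|) (t := tau x) (θ := th x) (a := tau z) (b := tau y)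
    (K := KK m) (M := MM x y) (P := MM x y - JJ x z) hu rfl rfl (KK_ge m) (MM_le x y)
    (by linarith) (by linarith) hxy (tau_sep hzx hzbar)
  rw [lam_zero]
  unfold PhX
  rw [chi_zero, chi_zero]
  have hM0 : 0 < MM x y := by linarith
  have e : SS x y * (tau z ^ 2 - tau x ^ 2) + 0 / 2 * WW m * cs x y * (pr x - pr z) +
      2 * SS x y * th x * (tau x - tau z) +
      2 * (SS x y * ((tau x - th x) ^ 2 - (tau y + th x) ^ 2) / (2 * MM x y)) * JJ x z =
      SS x y / MM x y * (MM x y * (tau z - th x) ^ 2 -
        ((MM x y - JJ x z) * (tau x - th x) ^ 2 +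
          (MM x y - (MM x y - JJ x z)) * (tau y + th x) ^ 2)) := by
    field_simp
    ring
  rw [e]
  exact mul_pos (div_pos hS hM0) (by linarith)

lemma CY_zero {x y z : Cube m} (hne : y ≠ x) (hbar : y ≠ bar x)
    (hxy : KK m * |tau y| ≤ |tau x|) (hz : ∀ k, x k ≠ y k → z k = y k) (hzy : z ≠ y)
    (hzx : z ≠ bar x) : 0 < PhY 0 x y z - 2 * lam 0 x y * JJ y z := by
  have hM := MM_pos hbar
  have hS := SS_pos hne
  have hJ : JJ y z + 1 ≤ MM x y := by
    rw [MM_comm]
    exact JJ_lt (fun k hk => hz k (Ne.symm hk)) hzx
  have hJ1 := JJ_pos hzy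
  have hzx' : z ≠ x := by
    obtain ⟨k, hk⟩ : ∃ k, x k ≠ y k := by
      by_contra hc
      push Not at hc
      exact hne (funext fun k => (hc k).symm)
    intro h
    have h1 := hz k hk
    rw [h] at h1
    exact hk h1
  have hu : 0 < |tau x| := by linarith [one_le_abs_tau x]
  have key := core_ineq (u := |tau x|) (t := tau x) (θ := th x) (a := -tau z) (b := tau y)
    (K := KK m) (M := MM x y) (P := JJ y z) hu rfl rfl (KK_ge m) (MM_le x y)
    hJ1 (by linarith) hxy (by rw [abs_neg]; exact tau_sep hzx' hzx)
  rw [lam_zero]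
  unfold PhY
  rw [chi_zero, chi_zero]
  have hM0 : 0 < MM x y := by linarith
  have e : SS x y * (tau z ^ 2 - tau y ^ 2) + 0 / 2 * WW m * cs x y * (pr y - pr z) +
      2 * SS x y * th x * (tau z - tau y) -
      2 * (SS x y * ((tau x - th x) ^ 2 - (tau y + th x) ^ 2) / (2 * MM x y)) * JJ y z =
      SS x y / MM x y * (MM x y * (-tau z - th x) ^ 2 -
        (JJ y z * (tau x - th x) ^ 2 +
          (MM x y - JJ y z) * (tau y + th x) ^ 2)) := by
    field_simp
    ring
  rw [e]
  exact mul_pos (div_pos hS hM0) (by linarith)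

lemma ev_of_continuous {f : ℝ → ℝ} (hf : Continuous f) (h0 : 0 < f 0) :
    ∀ᶠ ε in 𝓝[>] (0 : ℝ), 0 < f ε :=
  ((hf.tendsto 0).eventually_const_lt h0).filter_mono nhdsWithin_le_nhds

lemma ev_sep_pair (x y : Cube m) (hne : y ≠ x) (hbar : y ≠ bar x)
    (hxy : KK m * |tau y| ≤ |tau x|) :
    ∀ᶠ ε in 𝓝[>] (0 : ℝ), Sep ε (Sum.inl x) (Sum.inl y) := by
  have hM := MM_pos hbar
  have hX : ∀ z : Cube m, ∀ᶠ ε in 𝓝[>] (0 : ℝ), (∀ k, x k ≠ y k → z k = x k) → z ≠ x →
      0 < PhX ε x y z + 2 * lam ε x y * JJ x z := by
    intro z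
    by_cases hz : ∀ k, x k ≠ y k → z k = x k
    · by_cases hzx : z = x
      · exact Eventually.of_forall fun ε _ h => absurd hzx h
      · by_cases hzy : z = bar y
        · filter_upwards [self_mem_nhdsWithin] with ε hε _ _
          have hQ := Q_pos hε hne hxy
          rw [hzy, JJ_bar]
          have e : 2 * lam ε x y * MM x y = (PhY ε x y (bar x) - PhX ε x y (bar y)) / 2 := by
            unfold lam
            field_simp
            ring
          rw [e]
          linarith
        · have h0 := CX_zero hne hbar hxy hz hzx hzy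
          have hc : Continuous fun ε : ℝ => PhX ε x y z + 2 * lam ε x y * JJ x z := by
            have h1 := continuous_PhX x y z
            have h2 := continuous_lam x y
            fun_prop
          filter_upwards [ev_of_continuous hc h0] with ε hε _ _
          exact hε
    · exact Eventually.of_forall fun ε h => absurd h hz
  have hY : ∀ z : Cube m, ∀ᶠ ε in 𝓝[>] (0 : ℝ), (∀ k, x k ≠ y k → z k = y k) → z ≠ y →
      0 < PhY ε x y z - 2 * lam ε x y * JJ y z := by
    intro z
    by_cases hz : ∀ k, x k ≠ y k → z k = y k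
    · by_cases hzy : z = y
      · exact Eventually.of_forall fun ε _ h => absurd hzy h
      · by_cases hzx : z = bar x
        · filter_upwards [self_mem_nhdsWithin] with ε hε _ _
          have hQ := Q_pos hε hne hxy
          rw [hzx, JJ_bar, MM_comm]
          have e : 2 * lam ε x y * MM x y = (PhY ε x y (bar x) - PhX ε x y (bar y)) / 2 := by
            unfold lam
            field_simp
            ring
          rw [e]
          linarith
        · have h0 := CY_zero hne hbar hxy hz hzy hzx
          have hc : Continuous fun ε : ℝ => PhY ε x y z - 2 * lam ε x y * JJ y z := by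
            have h1 := continuous_PhY x y z
            have h2 := continuous_lam x y
            fun_prop
          filter_upwards [ev_of_continuous hc h0] with ε hε _ _
          exact hε
    · exact Eventually.of_forall fun ε h => absurd h hz
  filter_upwards [eventually_all.2 hX, eventually_all.2 hY] with ε h1 h2
  exact sep_pair hne h1 h2

end Pool.Agent.Touch
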