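import Pool.Agent.Work.MP_7ff5fd_co.Defs

/-!
# The two numerical inequalities for a pair of cube vertices
-/

open Finset Filter Topology

noncomputable section

namespace Pool.Agent.Touch

variable {m : ℕ}

lemma core_ineq {u t θ a b K M P : ℝ} (hu : 0 < u) (ht : |t| = u) (hθ : θ = t + u / 4)
    (hK : 96 ≤ K) (hM : 32 * M ≤ K) (hP1 : 1 ≤ P) (hPM : P ≤ M) (hb : K * |b| ≤ u)
    (ha : K * |a| ≤ u ∨ K * u ≤ |a|) :
    P * (t - θ) ^ 2 + (M - P) * (b + θ) ^ 2 < M * (a - θ) ^ 2 := by
  have hM1 : 1 ≤ M := hP1.trans hPM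
  have hb0 : 96 * |b| ≤ u := by nlinarith [abs_nonneg b]
  have hb1 : M * |b| ≤ u / 32 := by nlinarith [abs_nonneg b]
  have hA : (t - θ) ^ 2 = u ^ 2 / 16 := by rw [hθ]; ring
  have hθ1 : |θ| ≤ 5 * u / 4 := by
    rw [hθ, abs_le]
    constructor <;> cases' abs_le.1 ht.le with h1 h2 <;> linarith
  have hθ2 : 3 * u / 4 ≤ |θ| := by
    rw [hθ]
    rcases abs_cases t with ⟨h1, h2⟩ | ⟨h1, h2⟩
    · rw [abs_of_nonneg (by linarith)]
      linarith
    · rw [abs_of_neg (by linarith)]
      linarith
  have hB1 : 71 * u / 96 ≤ |b + θ| := by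
    have := abs_sub_abs_le_abs_sub θ (-b)
    rw [abs_neg, sub_neg_eq_add, add_comm θ b] at this
    linarith
  have hB2 : |b + θ| ≤ 121 * u / 96 := by
    have := abs_add_le b θ
    linarith
  have hB1' : (71 * u / 96) ^ 2 ≤ (b + θ) ^ 2 := by
    rw [← sq_abs (b + θ)]
    exact pow_le_pow_left₀ (by linarith) hB1 2
  have hB2' : (b + θ) ^ 2 ≤ (121 * u / 96) ^ 2 := by
    rw [← sq_abs (b + θ)]
    exact pow_le_pow_left₀ (abs_nonneg _) hB2 2
  have hu2 : 0 < u ^ 2 := by positivity
  have hAB : (t - θ) ^ 2 ≤ (b + θ) ^ 2 := by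
    rw [hA]
    nlinarith
  have hred : P * (t - θ) ^ 2 + (M - P) * (b + θ) ^ 2 ≤
      (t - θ) ^ 2 + (M - 1) * (b + θ) ^ 2 := by
    nlinarith
  refine hred.trans_lt ?_
  rw [hA]
  rcases ha with ha | ha
  · have ha0 : 96 * |a| ≤ u := by nlinarith [abs_nonneg a]
    have ha1 : M * |a| ≤ u / 32 := by nlinarith [abs_nonneg a]
    have h1 : |M * (a + b)| ≤ u / 16 := by
      rw [abs_mul, abs_of_pos (by linarith : 0 < M)]
      have := abs_add_le a b
      nlinarith
    have h2 : |a - b - 2 * θ| ≤ u / 48 + 5 * u / 2 := by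
      have e1 := abs_sub (a - b) (2 * θ)
      have e2 := abs_sub a b
      have e3 : |2 * θ| = 2 * |θ| := by rw [abs_mul]; norm_num
      linarith
    have h3 : -(u / 16 * (u / 48 + 5 * u / 2)) ≤ M * (a + b) * (a - b - 2 * θ) := by
      have e1 := neg_abs_le (M * (a + b) * (a - b - 2 * θ))
      rw [abs_mul] at e1
      have e2 : |M * (a + b)| * |a - b - 2 * θ| ≤ u / 16 * (u / 48 + 5 * u / 2) :=
        mul_le_mul h1 h2 (abs_nonneg _) (by positivity)
      linarith
    have h4 : M * (a - θ) ^ 2 = M * (a + b) * (a - b - 2 * θ) + M * (b + θ) ^ 2 := by ring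
    rw [h4]
    nlinarith
  · have h1 : 94 * u ≤ |a - θ| := by
      have e1 := abs_sub_abs_le_abs_sub a θ
      nlinarith
    have h2 : (94 * u) ^ 2 ≤ (a - θ) ^ 2 := by
      rw [← sq_abs (a - θ)]
      exact pow_le_pow_left₀ (by linarith) h1 2
    have h3 : (M - 1) * (b + θ) ^ 2 ≤ (M - 1) * (121 * u / 96) ^ 2 :=
      mul_le_mul_of_nonneg_left hB2' (by linarith)
    have h4 : M * (94 * u) ^ 2 ≤ M * (a - θ) ^ 2 := mul_le_mul_of_nonneg_left h2 (by linarith)
    have h5 : 0 ≤ (M - 1) * u ^ 2 := mul_nonneg (by linarith) hu2.le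
    nlinarith

/-- the weights of the leading functional -/
def cc (k : Fin (m + 3)) : ℝ := if k = 0 ∨ k = 1 then mu m else 1

lemma cc_pos (k : Fin (m + 3)) : 0 < cc k := by
  unfold cc
  split_ifs
  · exact mu_pos m
  · exact one_pos

/-- total weight of the coordinates in which `x` and `y` differ -/
def SS (x y : Cube m) : ℝ := ∑ k, if x k = y k then 0 else cc k

/-- special weight -/
def cs (x y : Cube m) : ℝ := ∑ k, if x k = y k then 0 else cc k * om k

/-- `θ` -/
def th (x : Cube m) : ℝ := tau x + |tau x| / 4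

/-- the number of common coordinates -/
def MM (x y : Cube m) : ℝ := ((univ.filter (fun k => x k = y k)).card : ℝ)

/-- the Hamming distance -/
def JJ (x z : Cube m) : ℝ := ((univ.filter (fun k => x k ≠ z k)).card : ℝ)

def PhX (ε : ℝ) (x y z : Cube m) : ℝ :=
  SS x y * (chi ε z ^ 2 - chi ε x ^ 2) + ε / 2 * WW m * cs x y * (pr x - pr z) +
    2 * SS x y * th x * (chi ε x - chi ε z)

def PhY (ε : ℝ) (x y z : Cube m) : ℝ :=
  SS x y * (chi ε z ^ 2 - chi ε y ^ 2) + ε / 2 * WW m * cs x y * (pr y - pr z) +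
    2 * SS x y * th x * (chi ε z - chi ε y)

def lam (ε : ℝ) (x y : Cube m) : ℝ := (PhY ε x y (bar x) - PhX ε x y (bar y)) / (4 * MM x y)

lemma SS_pos {x y : Cube m} (h : y ≠ x) : 0 < SS x y := by
  obtain ⟨k, hk⟩ : ∃ k, x k ≠ y k := by
    by_contra hc
    push Not at hc
    exact h (funext fun k => (hc k).symm)
  unfold SS
  refine sum_pos' (fun k _ => ?_) ⟨k, mem_univ _, ?_⟩
  · split_ifs
    · exact le_rfl
    · exact (cc_pos k).le
  · rw [if_neg hk]
    exact cc_pos k

lemma chi_zero (x : Cube m) : chi 0 x = tau x := by simp [chi]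

lemma chi_bar (ε : ℝ) (x : Cube m) : chi ε (bar x) = -tau x + ε * |tau x| := by
  unfold chi
  rw [tau_bar, abs_neg]

lemma sum_eq (ε : ℝ) (x y : Cube m) :
    PhX ε x y (bar y) + PhY ε x y (bar x) =
      ε * (4 * SS x y * (|tau x| * (|tau x| / 4) - |tau y| * (th x + tau y)) +
        WW m * cs x y * (pr x + pr y)) := by
  unfold PhX PhY
  rw [chi_bar, chi_bar, pr_bar, pr_bar]
  unfold chi th
  ring

/-- the special term is small -/
lemma cs_small (x y : Cube m) (h : y ≠ x) : |WW m * cs x y * (pr x + pr y)| ≤ SS x y / 8 := by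
  have hcs : cs x y = mu m * ((if x 0 = y 0 then 0 else 1) - (if x 1 = y 1 then 0 else 1)) := by
    unfold cs
    have h01 : (0 : Fin (m + 3)) ≠ 1 := by
      intro h
      have := congrArg Fin.val h
      simp at this
    rw [← Finset.add_sum_erase _ _ (mem_univ (0 : Fin (m + 3))),
      ← Finset.add_sum_erase _ _ (mem_erase.2 ⟨h01.symm, mem_univ (1 : Fin (m + 3))⟩)]
    have hz : ∑ k ∈ (univ.erase (0 : Fin (m + 3))).erase 1,
        (if x k = y k then (0 : ℝ) else cc k * om k) = 0 := by
      refine sum_eq_zero fun k hk => ?_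
      rw [mem_erase, mem_erase] at hk
      have : om k = 0 := by
        unfold om
        rw [if_neg hk.2.1, if_neg hk.1]
      rw [this, mul_zero, ite_self]
    rw [hz]
    simp only [cc, om, true_or, or_true, if_true, if_neg h01.symm]
    split_ifs <;> ring
  have hS2 : x 2 ≠ y 2 → 1 ≤ SS x y := by
    intro h2
    unfold SS
    have h20 : ¬ ((2 : Fin (m + 3)) = 0 ∨ (2 : Fin (m + 3)) = 1) := by
      rintro (h | h)
      · have := congrArg Fin.val h
        simp at this
        rw [Nat.mod_eq_of_lt (by omega)] at this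
        omega
      · have := congrArg Fin.val h
        simp at this
        rw [Nat.mod_eq_of_lt (by omega)] at this
        omega
    have := single_le_sum (f := fun k => if x k = y k then (0 : ℝ) else cc k)
      (fun k _ => by
        change (0 : ℝ) ≤ if x k = y k then (0 : ℝ) else cc k
        split_ifs
        · exact le_rfl
        · exact (cc_pos k).le) (mem_univ (2 : Fin (m + 3)))
    simp only [if_neg h2, cc, if_neg h20] at this
    exact this
  have hSp := SS_pos h
  rw [hcs]
  have hprod : WW m * (mu m * ((if x 0 = y 0 then 0 else 1) - (if x 1 = y 1 then 0 else 1))) =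
      1 / 16 * ((if x 0 = y 0 then 0 else 1) - (if x 1 = y 1 then 0 else 1)) := by
    rw [← mul_assoc, WW_mul_mu]
  rw [hprod]
  by_cases h0 : x 0 = y 0
  · by_cases h1 : x 1 = y 1
    · rw [if_pos h0, if_pos h1]
      simp
      linarith
    · rw [if_pos h0, if_neg h1]
      by_cases h2 : x 2 = y 2
      · have : pr x + pr y = 0 := by
          unfold pr
          rw [← h0, ← h2, sg_of_ne h1]
          ring
        rw [this]
        simp
        linarith
      · have h3 := hS2 h2
        have h4 : |pr x + pr y| ≤ 2 := by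
          rcases pr_sq x with h | h <;> rcases pr_sq y with h' | h' <;> rw [h, h'] <;> norm_num
        rw [abs_mul]
        have h5 : |(1 / 16 * (0 - 1) : ℝ)| = 1 / 16 := by norm_num
        rw [h5]
        linarith
  · by_cases h1 : x 1 = y 1
    · rw [if_neg h0, if_pos h1]
      by_cases h2 : x 2 = y 2
      · have : pr x + pr y = 0 := by
          unfold pr
          rw [← h1, ← h2, sg_of_ne h0]
          ring
        rw [this]
        simp
        linarith
      · have h3 := hS2 h2
        have h4 : |pr x + pr y| ≤ 2 := by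
          rcases pr_sq x with h | h <;> rcases pr_sq y with h' | h' <;> rw [h, h'] <;> norm_num
        rw [abs_mul]
        have h5 : |(1 / 16 * (1 - 0) : ℝ)| = 1 / 16 := by norm_num
        rw [h5]
        linarith
    · rw [if_neg h0, if_neg h1]
      simp
      linarith

lemma Q_pos {ε : ℝ} (hε : 0 < ε) {x y : Cube m} (h : y ≠ x) (hxy : KK m * |tau y| ≤ |tau x|) :
    0 < PhX ε x y (bar y) + PhY ε x y (bar x) := by
  rw [sum_eq]
  refine mul_pos hε ?_
  have h1 := cs_small x y h
  have h2 := abs_le.1 h1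
  have hS := SS_pos h
  have hu := one_le_abs_tau x
  have hv := abs_nonneg (tau y)
  have hK := KK_ge m
  have hv1 : 96 * |tau y| ≤ |tau x| := by nlinarith
  have hθ : th x + tau y ≤ 9 * |tau x| / 4 := by
    unfold th
    have e1 := le_abs_self (tau x)
    have e2 := le_abs_self (tau y)
    linarith
  have h3 : |tau y| * (th x + tau y) ≤ |tau x| / 96 * (9 * |tau x| / 4) := by
    calc |tau y| * (th x + tau y) ≤ |tau y| * (9 * |tau x| / 4) :=
          mul_le_mul_of_nonneg_left hθ hv
      _ ≤ |tau x| / 96 * (9 * |tau x| / 4) :=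
          mul_le_mul_of_nonneg_right (by linarith) (by linarith)
  have h4 : 1 / 8 ≤ |tau x| * (|tau x| / 4) - |tau y| * (th x + tau y) := by
    nlinarith
  have h5 : SS x y / 2 ≤ 4 * SS x y * (|tau x| * (|tau x| / 4) - |tau y| * (th x + tau y)) := by
    nlinarith
  linarith [h2.1]

end Pool.Agent.Touch
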