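import Pool.Agent.Work.MP_7ff5fd_co.Num

/-!
# Pairs of cube vertices which are not antipodal
-/

open Finset Filter Topology

noncomputable section

namespace Pool.Agent.Touch

variable {m : ℕ}

/-- leading functional of the pair `x, y` -/
def a0 (x y : Cube m) : (Fin (m + 3) → ℝ) × ℝ :=
  (fun k => if x k = y k then 0 else cc k * sg (x k), 2 * SS x y * th x)

/-- first order correction of the functional of the pair `x, y` -/
def a1 (ε : ℝ) (x y : Cube m) : (Fin (m + 3) → ℝ) × ℝ :=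
  (fun k => if x k = y k then lam ε x y * sg (x k) else 0, 0)

lemma a0_V0 (x y z : Cube m) :
    FF (a0 x y) (V0 (Sum.inl z)) = ∑ k, if x k = y k then 0 else cc k * (sg (x k) * sg (z k)) := by
  unfold FF a0 V0
  simp only [mul_zero, add_zero]
  refine sum_congr rfl fun k _ => ?_
  split_ifs <;> ring

lemma a0_V0_inr (x y : Cube m) (s : Bool) :
    FF (a0 x y) (V0 (Sum.inr s)) = 2 * SS x y * th x * (sg s * HH m) := by
  unfold FF a0 V0
  simp

lemma a0_V0_x {x y z : Cube m} (hz : ∀ k, x k ≠ y k → z k = x k) :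
    FF (a0 x y) (V0 (Sum.inl z)) = SS x y := by
  rw [a0_V0]
  unfold SS
  refine sum_congr rfl fun k _ => ?_
  split_ifs with h
  · rfl
  · rw [hz k h, sg_sq, mul_one]

lemma a0_V0_y {x y z : Cube m} (hz : ∀ k, x k ≠ y k → z k = y k) :
    FF (a0 x y) (V0 (Sum.inl z)) = - SS x y := by
  rw [a0_V0]
  unfold SS
  rw [← sum_neg_distrib]
  refine sum_congr rfl fun k _ => ?_
  split_ifs with h
  · simp
  · rw [hz k h, sg_of_ne h]
    have := sg_sq (x k)
    linear_combination (-cc k) * this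

lemma a0_V0_lt {x y z : Cube m} (hz : ¬ ∀ k, x k ≠ y k → z k = x k) :
    FF (a0 x y) (V0 (Sum.inl z)) < SS x y := by
  push Not at hz
  obtain ⟨k, hk, hk'⟩ := hz
  rw [a0_V0]
  unfold SS
  refine sum_lt_sum (fun i _ => ?_) ⟨k, mem_univ _, ?_⟩
  · split_ifs
    · exact le_rfl
    · nlinarith [cc_pos i, sg_mul_le (x i) (z i)]
  · rw [if_neg hk, if_neg hk, sg_mul_eq, if_neg (Ne.symm hk')]
    linarith [cc_pos k]

lemma lt_a0_V0 {x y z : Cube m} (hz : ¬ ∀ k, x k ≠ y k → z k = y k) :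
    - SS x y < FF (a0 x y) (V0 (Sum.inl z)) := by
  push Not at hz
  obtain ⟨k, hk, hk'⟩ := hz
  rw [a0_V0]
  unfold SS
  rw [← sum_neg_distrib]
  refine sum_lt_sum (fun i _ => ?_) ⟨k, mem_univ _, ?_⟩
  · split_ifs
    · simp
    · nlinarith [cc_pos i, neg_le_sg_mul (x i) (z i)]
  · have hxz : x k = z k := by
      revert hk hk'
      cases x k <;> cases y k <;> cases z k <;> simp
    rw [if_neg hk, if_neg hk, sg_mul_eq, if_pos hxz]
    linarith [cc_pos k]

lemma abs_th_le (x : Cube m) : |th x| * HH m ≤ 5 / 16 := by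
  have h1 : |th x| ≤ 5 / 4 * TT m := by
    unfold th
    have e1 := abs_add_le (tau x) (|tau x| / 4)
    have e2 : |(|tau x| / 4)| = |tau x| / 4 := abs_of_nonneg (by positivity)
    have e3 := abs_tau_le x
    linarith
  have hT := TT_pos m
  calc |th x| * HH m ≤ 5 / 4 * TT m * HH m := mul_le_mul_of_nonneg_right h1 (HH_pos m).le
    _ = 5 / 16 := by
      unfold HH
      field_simp
      norm_num

lemma a0_V0_inr_abs {x y : Cube m} (h : y ≠ x) (s : Bool) :
    |FF (a0 x y) (V0 (Sum.inr s))| < SS x y := by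
  rw [a0_V0_inr]
  have hS := SS_pos h
  have h1 : |2 * SS x y * th x * (sg s * HH m)| = 2 * SS x y * (|th x| * HH m) := by
    rw [abs_mul, abs_mul, abs_mul, abs_mul, abs_sg, abs_of_pos hS, abs_of_pos (HH_pos m)]
    norm_num
    ring
  rw [h1]
  nlinarith [abs_th_le x]

lemma a0_V1_x (ε : ℝ) {x y z : Cube m} (hz : ∀ k, x k ≠ y k → z k = x k) :
    FF (a0 x y) (V1 ε (Sum.inl z)) =
      -(SS x y * chi ε z ^ 2) + ε / 2 * WW m * cs x y * pr z + 2 * SS x y * th x * chi ε z := by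
  have h1 : ∑ k, (if x k = y k then (0 : ℝ) else cc k * sg (x k)) * (sg (z k) * gg ε k z) =
      ∑ k, ((if x k = y k then (0 : ℝ) else cc k) * (-(chi ε z ^ 2)) +
        (if x k = y k then (0 : ℝ) else cc k * om k) * (ε / 2 * WW m * pr z)) := by
    refine sum_congr rfl fun k _ => ?_
    split_ifs with h
    · ring
    · rw [hz k h]
      unfold gg
      have := sg_sq (x k)
      linear_combination (cc k * (-(chi ε z) ^ 2 + ε / 2 * WW m * om k * pr z)) * this
  unfold FF
  have h2 : (V1 ε (Sum.inl z) : (Fin (m + 3) → ℝ) × ℝ) =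
    (fun k => sg (z k) * gg ε k z, chi ε z) := rfl
  rw [h2]
  unfold a0
  simp only
  rw [h1, sum_add_distrib, ← sum_mul, ← sum_mul]
  unfold SS cs
  ring

lemma a0_V1_y (ε : ℝ) {x y z : Cube m} (hz : ∀ k, x k ≠ y k → z k = y k) :
    FF (a0 x y) (V1 ε (Sum.inl z)) =
      SS x y * chi ε z ^ 2 - ε / 2 * WW m * cs x y * pr z + 2 * SS x y * th x * chi ε z := by
  have h1 : ∑ k, (if x k = y k then (0 : ℝ) else cc k * sg (x k)) * (sg (z k) * gg ε k z) =
      ∑ k, ((if x k = y k then (0 : ℝ) else cc k) * (chi ε z ^ 2) -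
        (if x k = y k then (0 : ℝ) else cc k * om k) * (ε / 2 * WW m * pr z)) := by
    refine sum_congr rfl fun k _ => ?_
    split_ifs with h
    · ring
    · rw [hz k h, sg_of_ne h]
      unfold gg
      have := sg_sq (x k)
      linear_combination (-(cc k * (-(chi ε z) ^ 2 + ε / 2 * WW m * om k * pr z))) * this
  unfold FF
  have h2 : (V1 ε (Sum.inl z) : (Fin (m + 3) → ℝ) × ℝ) =
    (fun k => sg (z k) * gg ε k z, chi ε z) := rfl
  rw [h2]
  unfold a0
  simp only
  rw [h1, sum_sub_distrib, ← sum_mul, ← sum_mul]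
  unfold SS cs
  ring

lemma a0_V1_inr (ε : ℝ) (x y : Cube m) (s : Bool) : FF (a0 x y) (V1 ε (Sum.inr s)) = 0 := by
  have h2 : (V1 ε (Sum.inr s) : (Fin (m + 3) → ℝ) × ℝ) = 0 := rfl
  rw [h2]
  simp [FF]

lemma card_sum (p : Fin (m + 3) → Prop) [DecidablePred p] :
    (((univ.filter p).card : ℕ) : ℝ) = ∑ k, if p k then (1 : ℝ) else 0 := by
  rw [Finset.card_filter]
  push_cast
  rfl

lemma a1_V0_x (ε : ℝ) {x y z : Cube m} (hz : ∀ k, x k ≠ y k → z k = x k) :
    FF (a1 ε x y) (V0 (Sum.inl z)) = lam ε x y * (MM x y - 2 * JJ x z) := by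
  unfold FF a1 V0
  simp only [mul_zero, add_zero]
  unfold MM JJ
  rw [card_sum, card_sum, mul_sum, ← sum_sub_distrib, mul_sum]
  refine sum_congr rfl fun k _ => ?_
  by_cases h : x k = y k
  · rw [if_pos h, if_pos h, mul_assoc, sg_mul_eq]
    by_cases h' : x k = z k
    · rw [if_pos h', if_neg (not_not.2 h')]
      ring
    · rw [if_neg h', if_pos h']
      ring
  · rw [if_neg h, if_neg h, if_neg (not_not.2 (hz k h).symm)]
    ring

lemma a1_V0_y (ε : ℝ) {x y z : Cube m} (hz : ∀ k, x k ≠ y k → z k = y k) :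
    FF (a1 ε x y) (V0 (Sum.inl z)) = lam ε x y * (MM x y - 2 * JJ y z) := by
  unfold FF a1 V0
  simp only [mul_zero, add_zero]
  unfold MM JJ
  rw [card_sum, card_sum, mul_sum, ← sum_sub_distrib, mul_sum]
  refine sum_congr rfl fun k _ => ?_
  by_cases h : x k = y k
  · rw [if_pos h, if_pos h, mul_assoc, sg_mul_eq, h]
    by_cases h' : y k = z k
    · rw [if_pos h', if_neg (not_not.2 h')]
      ring
    · rw [if_neg h', if_pos h']
      ring
  · rw [if_neg h, if_neg h, if_neg (not_not.2 (hz k h).symm)]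
    ring

lemma JJ_self (x : Cube m) : JJ x x = 0 := by simp [JJ]

lemma sep_pair {ε : ℝ} {x y : Cube m} (hne : y ≠ x)
    (hCX : ∀ z, (∀ k, x k ≠ y k → z k = x k) → z ≠ x → 0 < PhX ε x y z + 2 * lam ε x y * JJ x z)
    (hCY : ∀ z, (∀ k, x k ≠ y k → z k = y k) → z ≠ y → 0 < PhY ε x y z - 2 * lam ε x y * JJ y z) :
    Sep ε (Sum.inl x) (Sum.inl y) := by
  have hxx : ∀ k, x k ≠ y k → x k = x k := fun _ _ => rfl
  have hyy : ∀ k, x k ≠ y k → y k = y k := fun _ _ => rfl
  refine ⟨a0 x y, a1 ε x y, fun k => ⟨fun hk => ?_, fun hk => ?_⟩⟩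
  · rw [a0_V0_x hxx]
    rcases k with z | s
    · by_cases hz : ∀ k, x k ≠ y k → z k = x k
      · right
        rw [a0_V0_x hz, a0_V1_x ε hxx, a0_V1_x ε hz, a1_V0_x ε hxx, a1_V0_x ε hz, JJ_self]
        refine ⟨sub_self _, ?_⟩
        have := hCX z hz (fun h => hk (by rw [h]))
        unfold PhX at this
        linarith
      · left
        linarith [a0_V0_lt hz]
    · left
      have := (abs_lt.1 (a0_V0_inr_abs hne s)).2
      linarith
  · rw [a0_V0_y hyy]
    rcases k with z | s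
    · by_cases hz : ∀ k, x k ≠ y k → z k = y k
      · right
        rw [a0_V0_y hz, a0_V1_y ε hyy, a0_V1_y ε hz, a1_V0_y ε hyy, a1_V0_y ε hz, JJ_self]
        refine ⟨sub_self _, ?_⟩
        have := hCY z hz (fun h => hk (by rw [h]))
        unfold PhY at this
        linarith
      · left
        linarith [lt_a0_V0 hz]
    · left
      have := (abs_lt.1 (a0_V0_inr_abs hne s)).1
      linarith

end Pool.Agent.Touch
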